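import Pool.Agent.helper9.DZ.Defs

/-! # Basic facts on runs of deterministic pushdown automata -/

set_option autoImplicit false

namespace DZ

variable {α Q Γ : Type} {M : DPDA α Q Γ}

theorem DPDA.RunN.trans {n m : ℕ} {C C₁ C₂ : Q × List Γ} {u v : List α}
    (h₁ : M.RunN n C u C₁) (h₂ : M.RunN m C₁ v C₂) : M.RunN (n + m) C (u ++ v) C₂ := by
  induction h₁ with
  | refl C => simpa using h₂
  | eps h _ ih =>
    have := DPDA.RunN.eps (M := M) h (ih h₂)
    simpa [Nat.add_right_comm] using this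
  | read h _ ih =>
    have := DPDA.RunN.read (M := M) h (ih h₂)
    simpa [Nat.add_right_comm] using this

theorem DPDA.Run.refl (C : Q × List Γ) : M.Run C [] C := ⟨0, DPDA.RunN.refl C⟩

theorem DPDA.Run.trans {C C₁ C₂ : Q × List Γ} {u v : List α}
    (h₁ : M.Run C u C₁) (h₂ : M.Run C₁ v C₂) : M.Run C (u ++ v) C₂ := by
  obtain ⟨n, hn⟩ := h₁
  obtain ⟨m, hm⟩ := h₂
  exact ⟨n + m, hn.trans hm⟩

/-- Locality: symbols may be put below the stack. -/
theorem DPDA.RunN.local' {n : ℕ} {C C' : Q × List Γ} {w : List α} (h : M.RunN n C w C')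
    (δ : List Γ) : M.RunN n (C.1, C.2 ++ δ) w (C'.1, C'.2 ++ δ) := by
  induction h with
  | refl C => exact DPDA.RunN.refl _
  | eps h _ ih =>
    refine DPDA.RunN.eps (M := M) h ?_
    simpa [List.append_assoc] using ih
  | read h _ ih =>
    refine DPDA.RunN.read (M := M) h ?_
    simpa [List.append_assoc] using ih

theorem DPDA.Run.local' {s s' : Q} {κ κ' : List Γ} {w : List α} (h : M.Run (s, κ) w (s', κ'))
    (δ : List Γ) : M.Run (s, κ ++ δ) w (s', κ' ++ δ) := by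
  obtain ⟨n, hn⟩ := h
  exact ⟨n, hn.local' δ⟩

/-- No move is possible with the empty stack. -/
theorem DPDA.RunN.of_nil {n : ℕ} {s : Q} {w : List α} {C' : Q × List Γ}
    (h : M.RunN n (s, []) w C') : n = 0 ∧ w = [] ∧ C' = (s, []) := by
  cases h with
  | refl => exact ⟨rfl, rfl, rfl⟩

/-- One step backwards. -/
theorem DPDA.RunN.eps_inv {m : ℕ} {q q' : Q} {Z : Γ} {μ γ : List Γ} {w : List α}
    {C₂ : Q × List Γ} (h : M.eps q Z = some (q', μ)) (h₂ : M.RunN m (q, Z :: γ) w C₂)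
    (hne : w ≠ []) : ∃ k, m = k + 1 ∧ M.RunN k (q', μ ++ γ) w C₂ := by
  cases h₂ with
  | refl => exact absurd rfl hne
  | @eps n _ q'' _ μ' _ _ _ h' h₂' =>
    rw [h] at h'
    simp only [Option.some.injEq, Prod.mk.injEq] at h'
    obtain ⟨rfl, rfl⟩ := h'
    exact ⟨n, rfl, h₂'⟩
  | read h' h₂' =>
    rw [M.det q Z (by rw [h]; simp)] at h'
    exact absurd h' (by simp)

theorem DPDA.RunN.read_inv {m : ℕ} {q q' : Q} {Z : Γ} {μ γ : List Γ} {a : α} {w : List α}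
    {C₂ : Q × List Γ} (h : M.rd q Z a = some (q', μ)) (h₂ : M.RunN m (q, Z :: γ) (a :: w) C₂) :
    ∃ k, m = k + 1 ∧ M.RunN k (q', μ ++ γ) w C₂ := by
  cases h₂ with
  | eps h' h₂' =>
    rw [M.det q Z (by rw [h']; simp)] at h
    exact absurd h (by simp)
  | @read n _ q'' _ μ' _ _ _ _ h' h₂' =>
    rw [h] at h'
    simp only [Option.some.injEq, Prod.mk.injEq] at h'
    obtain ⟨rfl, rfl⟩ := h'
    exact ⟨n, rfl, h₂'⟩

/-- Determinism. -/
theorem DPDA.RunN.det {n m : ℕ} {C C₁ C₂ : Q × List Γ} {u v : List α}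
    (h₁ : M.RunN n C u C₁) (h₂ : M.RunN m C (u ++ v) C₂) (hv : v ≠ []) :
    ∃ k, m = n + k ∧ M.RunN k C₁ v C₂ := by
  induction h₁ generalizing m with
  | refl C => exact ⟨m, by simp, by simpa using h₂⟩
  | @eps n q q' Z μ γ w C h _ ih =>
    obtain ⟨k, rfl, hk⟩ := h₂.eps_inv h (by simp [hv])
    obtain ⟨j, rfl, hj⟩ := ih hk
    exact ⟨j, by omega, hj⟩
  | @read n q q' Z μ γ a w C h _ ih =>
    obtain ⟨k, rfl, hk⟩ := DPDA.RunN.read_inv h h₂
    obtain ⟨j, rfl, hj⟩ := ih hk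
    exact ⟨j, by omega, hj⟩

theorem DPDA.Run.det {C C₁ C₂ : Q × List Γ} {u v : List α}
    (h₁ : M.Run C u C₁) (h₂ : M.Run C (u ++ v) C₂) (hv : v ≠ []) : M.Run C₁ v C₂ := by
  obtain ⟨n, hn⟩ := h₁
  obtain ⟨m, hm⟩ := h₂
  obtain ⟨k, -, hk⟩ := hn.det hm hv
  exact ⟨k, hk⟩

/-- Two runs on the same word are comparable. -/
theorem DPDA.RunN.comparable {n m : ℕ} {C C₁ C₂ : Q × List Γ} {u : List α}
    (h₁ : M.RunN n C u C₁) (h₂ : M.RunN m C u C₂) :
    M.Run C₁ [] C₂ ∨ M.Run C₂ [] C₁ := by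
  induction h₁ generalizing m with
  | refl C => exact Or.inl ⟨m, h₂⟩
  | @eps n q q' Z μ γ w C h h₁' ih =>
    cases h₂ with
    | refl => exact Or.inr ⟨n + 1, DPDA.RunN.eps h h₁'⟩
    | @eps n' _ q'' _ μ' _ _ _ h' h₂' =>
      rw [h] at h'
      simp only [Option.some.injEq, Prod.mk.injEq] at h'
      obtain ⟨rfl, rfl⟩ := h'
      exact ih h₂'
    | read h' h₂' =>
      rw [M.det q Z (by rw [h]; simp)] at h'
      exact absurd h' (by simp)
  | @read n q q' Z μ γ a w C h _ ih =>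
    obtain ⟨k, rfl, hk⟩ := DPDA.RunN.read_inv h h₂
    exact ih hk

/-- The state in which a stack is popped by a word is unique. -/
theorem DPDA.Run.pop_unique {C : Q × List Γ} {s s' : Q} {u : List α}
    (h₁ : M.Run C u (s, [])) (h₂ : M.Run C u (s', [])) : s = s' := by
  obtain ⟨n, hn⟩ := h₁
  obtain ⟨m, hm⟩ := h₂
  rcases hn.comparable hm with ⟨k, h⟩ | ⟨k, h⟩
  · have := h.of_nil.2.2
    simp only [Prod.mk.injEq] at this
    exact this.1.symm
  · have := h.of_nil.2.2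
    simp only [Prod.mk.injEq] at this
    exact this.1

/-- A run over a long word passes through some configuration after each prefix. -/
theorem DPDA.RunN.split_word {n : ℕ} {C C₂ : Q × List Γ} {z : List α} (h : M.RunN n C z C₂)
    (u v : List α) (hz : z = u ++ v) : ∃ C₁, M.Run C u C₁ ∧ M.Run C₁ v C₂ := by
  induction h generalizing u with
  | refl C =>
    obtain ⟨rfl, rfl⟩ : u = [] ∧ v = [] := by simpa using hz.symm
    exact ⟨C, DPDA.Run.refl C, DPDA.Run.refl C⟩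
  | @eps n q q' Z μ γ w C h h₁' ih =>
    obtain ⟨C₁, ⟨k, hk⟩, h2⟩ := ih u hz
    exact ⟨C₁, ⟨k + 1, DPDA.RunN.eps h hk⟩, h2⟩
  | @read n q q' Z μ γ a w C h h₁' ih =>
    cases u with
    | nil =>
      refine ⟨(q, Z :: γ), DPDA.Run.refl _, ?_⟩
      have hv : v = a :: w := by simpa using hz.symm
      subst hv
      exact ⟨n + 1, DPDA.RunN.read h h₁'⟩
    | cons b u =>
      simp only [List.cons_append, List.cons.injEq] at hz
      obtain ⟨rfl, hz⟩ := hz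
      obtain ⟨C₁, ⟨k, hk⟩, h2⟩ := ih u hz
      exact ⟨C₁, ⟨k + 1, DPDA.RunN.read h hk⟩, h2⟩

theorem DPDA.Run.split_word {C C₂ : Q × List Γ} {u v : List α} (h : M.Run C (u ++ v) C₂) :
    ∃ C₁, M.Run C u C₁ ∧ M.Run C₁ v C₂ := by
  obtain ⟨n, hn⟩ := h
  exact hn.split_word u v rfl

/-- Decomposition of a run with a stack `κ ++ δ`: either `δ` is not touched or `κ` is popped. -/
theorem DPDA.RunN.split_stack {n : ℕ} {C C' : Q × List Γ} {w : List α} (h : M.RunN n C w C')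
    (κ δ : List Γ) (hC : C.2 = κ ++ δ) :
    (∃ κ', C'.2 = κ' ++ δ ∧ M.Run (C.1, κ) w (C'.1, κ')) ∨
      ∃ w₁ w₂ s, w = w₁ ++ w₂ ∧ M.Run (C.1, κ) w₁ (s, []) ∧ M.Run (s, δ) w₂ C' := by
  induction h generalizing κ with
  | refl C => exact Or.inl ⟨κ, hC, DPDA.Run.refl _⟩
  | @eps n q q' Z μ γ w C h h₁' ih =>
    cases κ with
    | nil =>
      refine Or.inr ⟨[], w, q, rfl, DPDA.Run.refl _, ?_⟩
      simp only [List.nil_append] at hC
      subst hC
      exact ⟨n + 1, DPDA.RunN.eps h h₁'⟩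
    | cons Y κ =>
      simp only [List.cons_append, List.cons.injEq] at hC
      obtain ⟨rfl, rfl⟩ := hC
      rcases ih (μ ++ κ) (by simp) with ⟨κ', h1, k, hk⟩ | ⟨w₁, w₂, s, h1, ⟨k, hk⟩, h3⟩
      · exact Or.inl ⟨κ', h1, k + 1, DPDA.RunN.eps h hk⟩
      · exact Or.inr ⟨w₁, w₂, s, h1, ⟨k + 1, DPDA.RunN.eps h hk⟩, h3⟩
  | @read n q q' Z μ γ a w C h h₁' ih =>
    cases κ with
    | nil =>
      refine Or.inr ⟨[], a :: w, q, rfl, DPDA.Run.refl _, ?_⟩
      simp only [List.nil_append] at hC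
      subst hC
      exact ⟨n + 1, DPDA.RunN.read h h₁'⟩
    | cons Y κ =>
      simp only [List.cons_append, List.cons.injEq] at hC
      obtain ⟨rfl, rfl⟩ := hC
      rcases ih (μ ++ κ) (by simp) with ⟨κ', h1, k, hk⟩ | ⟨w₁, w₂, s, rfl, ⟨k, hk⟩, h3⟩
      · exact Or.inl ⟨κ', h1, k + 1, DPDA.RunN.read h hk⟩
      · exact Or.inr ⟨a :: w₁, w₂, s, rfl, ⟨k + 1, DPDA.RunN.read h hk⟩, h3⟩

theorem DPDA.Run.split_stack {q : Q} {κ δ : List Γ} {C' : Q × List Γ} {w : List α}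
    (h : M.Run (q, κ ++ δ) w C') :
    (∃ κ', C'.2 = κ' ++ δ ∧ M.Run (q, κ) w (C'.1, κ')) ∨
      ∃ w₁ w₂ s, w = w₁ ++ w₂ ∧ M.Run (q, κ) w₁ (s, []) ∧ M.Run (s, δ) w₂ C' := by
  obtain ⟨n, hn⟩ := h
  exact hn.split_stack κ δ rfl

theorem DPDA.acc_append (s : Q) (κ δ : List Γ) (v : List α) :
    M.Acc (s, κ ++ δ) v ↔ M.Acc (s, κ) v ∨
      ∃ s' v₁ v₂, v = v₁ ++ v₂ ∧ M.Run (s, κ) v₁ (s', []) ∧ M.Acc (s', δ) v₂ := by
  constructor
  · rintro ⟨C', h, hf⟩
    rcases h.split_stack with ⟨κ', h1, h2⟩ | ⟨w₁, w₂, t, rfl, h1, h2⟩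
    · exact Or.inl ⟨_, h2, hf⟩
    · exact Or.inr ⟨t, w₁, w₂, rfl, h1, _, h2, hf⟩
  · rintro (⟨⟨t, κ'⟩, h, hf⟩ | ⟨s', v₁, v₂, rfl, h1, C', h2, hf⟩)
    · exact ⟨_, h.local' δ, hf⟩
    · exact ⟨C', (h1.local' δ).trans h2, hf⟩

theorem DPDA.acc_run {C C₁ : Q × List Γ} {u v : List α} (h : M.Run C u C₁) (hv : v ≠ []) :
    M.Acc C (u ++ v) ↔ M.Acc C₁ v := by
  constructor
  · rintro ⟨C', h', hf⟩
    exact ⟨C', h.det h' hv, hf⟩
  · rintro ⟨C', h', hf⟩
    exact ⟨C', h.trans h', hf⟩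

theorem DPDA.Live.run {C C₁ : Q × List Γ} {u : List α} (hL : M.Live C) (x : α)
    (h : M.Run C u C₁) : M.Live C₁ := by
  intro v
  obtain ⟨C', h'⟩ := hL (u ++ (v ++ [x]))
  obtain ⟨C₂, h2, -⟩ := (h.det h' (by simp)).split_word
  exact ⟨C₂, h2⟩

theorem DPDA.Live.ne_nil {C : Q × List Γ} (hL : M.Live C) (x : α) : C.2 ≠ [] := by
  obtain ⟨C', n, h'⟩ := hL [x]
  obtain ⟨q, γ⟩ := C
  rintro rfl
  exact absurd h'.of_nil.2.1 (by simp)

theorem DPDA.Live.stack_ne_nil {s s' : Q} {κ : List Γ} {u : List α} (hL : M.Live (s, κ)) (x : α)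
    (h : M.Run (s, κ) u (s', [])) : False :=
  (hL.run x h).ne_nil x rfl

/-- Letter powers add. -/
theorem replicate_add' (n m : ℕ) (x : α) :
    List.replicate (n + m) x = List.replicate n x ++ List.replicate m x := by
  exact List.replicate_add n m x

/-- Popping a prefix: if `κ ++ δ` is popped by powers of `x` then so is `κ`, faster. -/
theorem DPDA.Run.pop_initial {s s' : Q} {κ δ : List Γ} {n : ℕ} {x : α}
    (h : M.Run (s, κ ++ δ) (List.replicate n x) (s', [])) :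
    ∃ m ≤ n, ∃ t, M.Run (s, κ) (List.replicate m x) (t, []) ∧
      M.Run (t, δ) (List.replicate (n - m) x) (s', []) := by
  rcases h.split_stack with ⟨κ', h1, h2⟩ | ⟨w₁, w₂, t, h0, h1, h2⟩
  · simp only [List.nil_eq, List.append_eq_nil_iff] at h1
    obtain ⟨rfl, rfl⟩ := h1
    exact ⟨n, le_rfl, s', h2, by simpa using DPDA.Run.refl _⟩
  · have hl := congrArg List.length h0
    simp only [List.length_replicate, List.length_append] at hl
    have e1 : w₁ = List.replicate w₁.length x := by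
      refine List.eq_replicate_of_mem (fun b hb => ?_)
      exact List.eq_of_mem_replicate (h0 ▸ List.mem_append_left _ hb)
    have e2 : w₂ = List.replicate w₂.length x := by
      refine List.eq_replicate_of_mem (fun b hb => ?_)
      exact List.eq_of_mem_replicate (h0 ▸ List.mem_append_right _ hb)
    refine ⟨w₁.length, by omega, t, e1 ▸ h1, ?_⟩
    have : n - w₁.length = w₂.length := by omega
    rw [this]
    exact e2 ▸ h2

end DZ
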