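import Pool.Agent.helper9.DZ.Soft

/-! # From confusions for words to confusions for ultrafilters -/

set_option autoImplicit false

open Filter

namespace DZ

variable {α : Type} {G : Type} [Group G] {ev : List α → G}

theorem cle_of_finite (L : Set (List α)) (Λ : Set G) (hΛ : Λ.Finite)
    (hCL : ∀ R : ℕ, ∃ P : Set (List α × List α), P.Finite ∧ ∀ w, ∃ p ∈ P,
      ev p.1 = 1 ∧ ev p.2 ∈ Λ ∧ ∀ x : List α, x.length ≤ R →
        (w ++ (p.1 ++ x) ∈ L ↔ w ++ (p.2 ++ x) ∈ L)) (U : Ultrafilter (List α)) :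
    ∃ v ∈ Λ, ∃ p ∈ TT ev 1, ∃ p' ∈ TT ev v, act (act L U) p = act (act L U) p' := by
  have h1 : ∀ R : ℕ, ∃ p : List α × List α, {w | ev p.1 = 1 ∧ ev p.2 ∈ Λ ∧ ∀ x : List α,
      x.length ≤ R → (w ++ (p.1 ++ x) ∈ L ↔ w ++ (p.2 ++ x) ∈ L)} ∈ U := by
    intro R
    obtain ⟨P, hP, h⟩ := hCL R
    have h2 : (⋃ p ∈ P, {w | ev p.1 = 1 ∧ ev p.2 ∈ Λ ∧ ∀ x : List α,
        x.length ≤ R → (w ++ (p.1 ++ x) ∈ L ↔ w ++ (p.2 ++ x) ∈ L)}) ∈ U := by
      refine Filter.univ_mem' (fun w => ?_)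
      obtain ⟨p, hp, h3⟩ := h w
      exact Set.mem_biUnion hp h3
    obtain ⟨p, -, h3⟩ := (Ultrafilter.finite_biUnion_mem_iff hP).1 h2
    exact ⟨p, h3⟩
  choose p hp using h1
  have hp1 : ∀ R, ev (p R).1 = 1 := by
    intro R
    obtain ⟨w, hw⟩ := U.nonempty_of_mem (hp R)
    exact hw.1
  have hp2 : ∀ R, ev (p R).2 ∈ Λ := by
    intro R
    obtain ⟨w, hw⟩ := U.nonempty_of_mem (hp R)
    exact hw.2.1
  have h4 : (⋃ v ∈ Λ, {R | ev (p R).2 = v}) ∈ hyperfilter ℕ := by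
    refine Filter.univ_mem' (fun R => ?_)
    exact Set.mem_biUnion (hp2 R) rfl
  obtain ⟨v, hv, h5⟩ := (Ultrafilter.finite_biUnion_mem_iff hΛ).1 h4
  refine ⟨v, hv, (hyperfilter ℕ).map (fun R => (p R).1), ?_,
    (hyperfilter ℕ).map (fun R => (p R).2), ?_, ?_⟩
  · rw [mem_TT, Ultrafilter.mem_map]
    exact Filter.univ_mem' hp1
  · rw [mem_TT, Ultrafilter.mem_map]
    exact h5
  · ext x
    have key : ∀ᶠ R in (hyperfilter ℕ : Filter ℕ),
        ((p R).1 ++ x ∈ act L U ↔ (p R).2 ++ x ∈ act L U) := by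
      have : ∀ᶠ R in (hyperfilter ℕ : Filter ℕ), x.length ≤ R := by
        refine Nat.hyperfilter_le_atTop ?_
        exact Filter.eventually_ge_atTop _
      filter_upwards [this] with R hR
      rw [mem_act, mem_act]
      refine Filter.eventually_congr ?_
      filter_upwards [hp R] with w hw
      exact hw.2.2 x hR
    have e1 : x ∈ act (act L U) ((hyperfilter ℕ).map (fun R => (p R).1)) ↔
        ∀ᶠ R in (hyperfilter ℕ : Filter ℕ), (p R).1 ++ x ∈ act L U := Iff.rfl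
    have e2 : x ∈ act (act L U) ((hyperfilter ℕ).map (fun R => (p R).2)) ↔
        ∀ᶠ R in (hyperfilter ℕ : Filter ℕ), (p R).2 ++ x ∈ act L U := Iff.rfl
    rw [e1, e2]
    exact Filter.eventually_congr key

end DZ
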