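import Pool.Agent.helper9.DZ.Group

/-! # Finitely many confined subgroups of `ℤ² * ℤ` intersect nontrivially -/

set_option autoImplicit false

open Matrix

namespace DZ

theorem length_ne_zero {w : ℤ × ℤ} (hw : w ≠ 0) : (w.1 : ℝ) + w.2 * √2 ≠ 0 := by
  intro h
  by_cases h2 : w.2 = 0
  · rw [h2] at h
    apply hw
    have : (w.1 : ℝ) = 0 := by simpa using h
    ext
    · exact_mod_cast this
    · exact h2
  · have h3 : (w.2 : ℝ) ≠ 0 := by exact_mod_cast h2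
    refine irrational_sqrt_two ⟨(-w.1 : ℚ) / w.2, ?_⟩
    push_cast
    field_simp
    linarith

theorem zz_comm (u w : ℤ × ℤ) : zz u * zz w = zz w * zz u := by
  rw [← zz_add, ← zz_add, add_comm]

/-- The conjugate used in the construction. -/
def kk (x : G) (p : ℕ × (ℤ × ℤ)) (f : G) : G := zz p.2 * (x * f * x⁻¹) * (zz p.2)⁻¹

/-- The candidate elements. -/
def YY (x : G) (p : ℕ × (ℤ × ℤ)) (f : G) (v : ℤ × ℤ) (i j : ℕ) : G :=
  (kk x p f ^ i * zz (p.1 • v) * (kk x p f ^ i)⁻¹) *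
    (kk x p f ^ j * (zz (p.1 • v))⁻¹ * (kk x p f ^ j)⁻¹)

theorem kk_pow (x : G) (p : ℕ × (ℤ × ℤ)) (f : G) (d : ℕ) :
    kk x p f ^ d = zz p.2 * (x * f ^ d * x⁻¹) * (zz p.2)⁻¹ := by
  rw [kk, conj_pow, conj_pow]

theorem hyp_YY {x : G} {p : ℕ × (ℤ × ℤ)} {f : G} {v : ℤ × ℤ} {i j : ℕ} (hp : 1 ≤ p.1)
    (hv : v ≠ 0) (hij : i < j) (hll : ll (x * f ^ (j - i) * x⁻¹) ≠ 0) : hyp (YY x p f v i j) := by
  obtain ⟨d, rfl⟩ : ∃ d, j = i + d := ⟨j - i, by omega⟩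
  rw [Nat.add_sub_cancel_left] at hll
  have hw : p.1 • v ≠ 0 := by
    intro h
    rcases smul_eq_zero.1 h with h | h
    · omega
    · exact hv h
  have e1 : YY x p f v i (i + d) = kk x p f ^ i *
      (zz p.2 * (zz (p.1 • v) * (x * f ^ d * x⁻¹) * (zz (p.1 • v))⁻¹ * (x * f ^ d * x⁻¹)⁻¹) *
        (zz p.2)⁻¹) * (kk x p f ^ i)⁻¹ := by
    rw [YY, pow_add, kk_pow x p f d]
    generalize kk x p f ^ i = A
    have hc := zz_comm p.2 (p.1 • v)
    generalize x * f ^ d * x⁻¹ = K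
    generalize zz p.2 = U at *
    generalize zz (p.1 • v) = W at *
    have hc2 : W⁻¹ * U⁻¹ = U⁻¹ * W⁻¹ := by
      rw [← _root_.mul_inv_rev, ← _root_.mul_inv_rev, hc]
    have hc3 : U⁻¹ * W⁻¹ * U = W⁻¹ := by
      rw [← hc2]
      group
    calc A * W * A⁻¹ * (A * (U * K * U⁻¹) * W⁻¹ * (A * (U * K * U⁻¹))⁻¹)
        = A * (W * U) * K * (U⁻¹ * W⁻¹ * U) * K⁻¹ * U⁻¹ * A⁻¹ := by group
      _ = A * (U * W) * K * W⁻¹ * K⁻¹ * U⁻¹ * A⁻¹ := by rw [hc3, hc]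
      _ = _ := by group
  rw [e1, hyp_conj, hyp_conj, hyp, tr_comm]
  have h1 := length_ne_zero hw
  have h2 : 0 < (((p.1 • v).1 : ℝ) + (p.1 • v).2 * √2) ^ 2 *
      ll (x * f ^ d * x⁻¹) ^ 2 := by positivity
  rw [abs_of_pos (by linarith)]
  linarith

/-- The induction step. -/
theorem confined_step (H K : Subgroup G) (Λ : Finset (ℤ × ℤ)) (h0 : 0 ∉ Λ)
    (hH : ∀ g, ∃ v ∈ Λ, g * zz v * g⁻¹ ∈ H) (E : Set G) (hE : E.Finite) (hEh : ∀ f ∈ E, hyp f)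
    (hK : ∀ g, ∃ f ∈ E, g * f * g⁻¹ ∈ K) :
    ∃ E' : Set G, E'.Finite ∧ (∀ f ∈ E', hyp f) ∧ ∀ g, ∃ f ∈ E', g * f * g⁻¹ ∈ H ⊓ K := by
  classical
  set m := Λ.card with hm
  -- the exponent `N`
  obtain ⟨N, hN⟩ := exists_conj (⋃ d ∈ Finset.Icc 1 m, (fun f : G => f ^ d) '' E)
    (Set.Finite.biUnion (Finset.finite_toSet _) (fun d _ => hE.image _)) (by
      intro f hf
      simp only [Set.mem_iUnion, Finset.mem_Icc] at hf
      obtain ⟨d, ⟨hd1, -⟩, g, hg, rfl⟩ := hf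
      obtain ⟨d, rfl⟩ : ∃ d', d = d' + 1 := ⟨d - 1, by omega⟩
      exact (hEh g hg).pow d)
  set x : G := Monoid.Coprod.inr (Multiplicative.ofAdd N) with hx
  have hfinE : Finite E := hE
  obtain ⟨F, hF, hF1, hG⟩ := gallai_fin (insert 0 Λ) E
  refine ⟨{y | ∃ p ∈ F, ∃ f ∈ E, ∃ v ∈ Λ, ∃ i j, i < j ∧ j ≤ m ∧ y = YY x p f v i j},
    ?_, ?_, ?_⟩
  · refine Set.Finite.subset (((hF.prod hE).prod ((Finset.finite_toSet Λ).prod
      ((Set.finite_Iic m).prod (Set.finite_Iic m)))).image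
      (fun z => YY x z.1.1 z.1.2 z.2.1 z.2.2.1 z.2.2.2)) ?_
    rintro y ⟨p, hp, f, hf, v, hv, i, j, hij, hj, rfl⟩
    exact ⟨((p, f), (v, (i, j))), ⟨⟨hp, hf⟩, hv, (show i ≤ m by omega), hj⟩, rfl⟩
  · rintro y ⟨p, hp, f, hf, v, hv, i, j, hij, hj, rfl⟩
    refine hyp_YY (hF1 p hp) (fun h => h0 (h ▸ hv)) hij (hN _ ?_)
    simp only [Set.mem_iUnion, Finset.mem_Icc]
    exact ⟨j - i, ⟨by omega, by omega⟩, f, hf, rfl⟩
  · intro g
    -- the colouring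
    have hcol : ∀ u : ℤ × ℤ, ∃ f : E, (g * zz u * x) * f * (g * zz u * x)⁻¹ ∈ K := by
      intro u
      obtain ⟨f, hf, h⟩ := hK (g * zz u * x)
      exact ⟨⟨f, hf⟩, h⟩
    choose C hC using hcol
    obtain ⟨p, hp, f, hf⟩ := hG C
    -- the elements `k` and `v ^ n k v ^ -n`
    have hk : ∀ v ∈ insert (0 : ℤ × ℤ) Λ,
        g * (zz (p.1 • v) * kk x p f * (zz (p.1 • v))⁻¹) * g⁻¹ ∈ K := by
      intro v hv
      have h1 := hC (p.1 • v + p.2)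
      rw [hf v hv, zz_add] at h1
      have e : g * (zz (p.1 • v) * kk x p f * (zz (p.1 • v))⁻¹) * g⁻¹ =
          (g * (zz (p.1 • v) * zz p.2) * x) * f * (g * (zz (p.1 • v) * zz p.2) * x)⁻¹ := by
        rw [kk]
        group
      rw [e]
      exact h1
    have hk0 : g * kk x p f * g⁻¹ ∈ K := by
      have := hk 0 (Finset.mem_insert_self _ _)
      simpa [zz_zero] using this
    -- the pigeonhole
    have hpig : ∀ j : Fin (m + 1), ∃ v : Λ,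
        (g * kk x p f ^ (j : ℕ)) * zz v * (g * kk x p f ^ (j : ℕ))⁻¹ ∈ H := by
      intro j
      obtain ⟨v, hv, h⟩ := hH (g * kk x p f ^ (j : ℕ))
      exact ⟨⟨v, hv⟩, h⟩
    choose V hV using hpig
    obtain ⟨i, j, hne, heq⟩ := Fintype.exists_ne_map_eq_of_card_lt V (by
      rw [Fintype.card_fin, Fintype.card_coe]
      omega)
    wlog hlt : i < j generalizing i j
    · exact this j i hne.symm heq.symm (lt_of_le_of_ne (not_lt.1 hlt) hne.symm)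
    have hpow : ∀ (j : Fin (m + 1)) (v : ℤ × ℤ),
        (g * kk x p f ^ (j : ℕ)) * zz v * (g * kk x p f ^ (j : ℕ))⁻¹ ∈ H →
        (g * kk x p f ^ (j : ℕ)) * zz (p.1 • v) * (g * kk x p f ^ (j : ℕ))⁻¹ ∈ H := by
      intro j v h
      have h1 := H.pow_mem h p.1
      rw [conj_pow] at h1
      have h2 : zz (p.1 • v) = zz v ^ p.1 := by
        rw [zz, zz, ofAdd_nsmul, map_pow]
      rw [h2]
      exact h1
    refine ⟨YY x p f (V i) i j, ⟨p, hp, f, f.2, V i, (V i).2, i, j, hlt, by omega, rfl⟩, ?_, ?_⟩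
    · have h1 := hpow i (V i) (hV i)
      have h2 := hpow j (V j) (hV j)
      rw [← heq] at h2
      have h3 := H.mul_mem h1 (H.inv_mem h2)
      have e : g * YY x p f (V i) i j * g⁻¹ =
          ((g * kk x p f ^ (i : ℕ)) * zz (p.1 • (V i : ℤ × ℤ)) * (g * kk x p f ^ (i : ℕ))⁻¹) *
          ((g * kk x p f ^ (j : ℕ)) * zz (p.1 • (V i : ℤ × ℤ)) *
            (g * kk x p f ^ (j : ℕ))⁻¹)⁻¹ := by
        rw [YY]
        group
      rw [e]
      exact h3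
    · obtain ⟨d, hd⟩ : ∃ d, (j : ℕ) = i + d := ⟨j - i, by omega⟩
      have h1 := K.pow_mem hk0 (i : ℕ)
      have h2 := K.pow_mem (hk (V i) (Finset.mem_insert_of_mem (V i).2)) d
      have h3 := K.inv_mem (K.pow_mem hk0 (j : ℕ))
      rw [conj_pow] at h1 h3
      rw [conj_pow, conj_pow] at h2
      have h4 := K.mul_mem (K.mul_mem h1 h2) h3
      have e : g * YY x p f (V i) i j * g⁻¹ =
          (g * kk x p f ^ (i : ℕ) * g⁻¹) * (g * (zz (p.1 • (V i : ℤ × ℤ)) * kk x p f ^ d *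
            (zz (p.1 • (V i : ℤ × ℤ)))⁻¹) * g⁻¹) * (g * kk x p f ^ (j : ℕ) * g⁻¹)⁻¹ := by
        rw [YY, hd, pow_add]
        group
      rw [e]
      exact h4

/-- **The group theorem.** -/
theorem group_main (Λ : Finset (ℤ × ℤ)) (h0 : 0 ∉ Λ) (k : ℕ) (H : Fin k → Subgroup G)
    (hH : ∀ i g, ∃ v ∈ Λ, g * zz v * g⁻¹ ∈ H i) : ∃ y, y ≠ 1 ∧ ∀ i, y ∈ H i := by
  have key : ∃ E : Set G, E.Finite ∧ (∀ f ∈ E, hyp f) ∧
      ∀ g, ∃ f ∈ E, ∀ i, g * f * g⁻¹ ∈ H i := by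
    induction k with
    | zero =>
      refine ⟨{zz (1, 0) * Monoid.Coprod.inr (Multiplicative.ofAdd (1 : ℤ))},
        Set.finite_singleton _, ?_, fun g => ⟨_, rfl, fun i => i.elim0⟩⟩
      rintro f rfl
      rw [hyp, tr, map_mul, rep_zz, rep_inr]
      simp only [Matrix.mul_fin_two, Matrix.trace_fin_two_of]
      norm_num
    | succ k ih =>
      obtain ⟨E, hE, hEh, hK⟩ := ih (fun i => H i.castSucc) (fun i => hH i.castSucc)
      obtain ⟨E', hE', hEh', h⟩ := confined_step (H (Fin.last k)) (⨅ i : Fin k, H i.castSucc)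
        Λ h0 (hH (Fin.last k)) E hE hEh (by
          intro g
          obtain ⟨f, hf, h⟩ := hK g
          exact ⟨f, hf, Subgroup.mem_iInf.2 h⟩)
      refine ⟨E', hE', hEh', fun g => ?_⟩
      obtain ⟨f, hf, hf1, hf2⟩ := h g
      refine ⟨f, hf, fun i => ?_⟩
      refine Fin.lastCases hf1 (fun i => Subgroup.mem_iInf.1 hf2 i) i
  obtain ⟨E, -, hEh, h⟩ := key
  obtain ⟨f, hf, h1⟩ := h 1
  exact ⟨f, (hEh f hf).ne_one, fun i => by simpa using h1 i⟩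

end DZ
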