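import Mathlib

/-!
# Definitions for project dz (MP_65b1f6_lc)

Deterministic pushdown automata and the word problem of `ℤ² * ℤ`.
Configurations are pairs (state, stack), the top of the stack is the head of the list.
-/

set_option autoImplicit false

namespace DZ

/-- A deterministic pushdown automaton over the input alphabet `α`, with state set `Q` and stack
alphabet `Γ`.  `eps q Z` is the move without input in state `q` with `Z` on top of the stack (if
there is one), `rd q Z a` the move reading the letter `a`; a move replaces `Z` by a word (top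
symbol first).  If an `eps` move is possible then no reading move is. -/
structure DPDA (α Q Γ : Type) where
  eps : Q → Γ → Option (Q × List Γ)
  rd : Q → Γ → α → Option (Q × List Γ)
  det : ∀ q Z, eps q Z ≠ none → ∀ a, rd q Z a = none
  start : Q
  bot : Γ
  final : Set Q

variable {α Q Γ : Type}

/-- `M.RunN n C w C'`: there is a run of `n` moves from `C` to `C'` reading exactly `w`. -/
inductive DPDA.RunN (M : DPDA α Q Γ) : ℕ → Q × List Γ → List α → Q × List Γ → Prop
  | refl (C : Q × List Γ) : DPDA.RunN M 0 C [] C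
  | eps {n : ℕ} {q q' : Q} {Z : Γ} {μ γ : List Γ} {w : List α} {C : Q × List Γ} :
      M.eps q Z = some (q', μ) → DPDA.RunN M n (q', μ ++ γ) w C →
        DPDA.RunN M (n + 1) (q, Z :: γ) w C
  | read {n : ℕ} {q q' : Q} {Z : Γ} {μ γ : List Γ} {a : α} {w : List α} {C : Q × List Γ} :
      M.rd q Z a = some (q', μ) → DPDA.RunN M n (q', μ ++ γ) w C →
        DPDA.RunN M (n + 1) (q, Z :: γ) (a :: w) C

/-- `M.Run C w C'`: there is a run from `C` to `C'` reading exactly `w`. -/
def DPDA.Run (M : DPDA α Q Γ) (C : Q × List Γ) (w : List α) (C' : Q × List Γ) : Prop :=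
  ∃ n, M.RunN n C w C'

/-- The word `w` is accepted from the configuration `C` (by final state). -/
def DPDA.Acc (M : DPDA α Q Γ) (C : Q × List Γ) (w : List α) : Prop :=
  ∃ C', M.Run C w C' ∧ C'.1 ∈ M.final

/-- The language of `M` (acceptance by final state, the initial stack consists of `bot`). -/
def DPDA.lang (M : DPDA α Q Γ) : Set (List α) := {w | M.Acc (M.start, [M.bot]) w}

/-- Every word can be read from the configuration `C`. -/
def DPDA.Live (M : DPDA α Q Γ) (C : Q × List Γ) : Prop := ∀ v, ∃ C', M.Run C v C'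

/-- Reading the letter `x` again and again in the state `s` never pops the stack symbol `Z`. -/
def DPDA.NP (M : DPDA α Q Γ) (s : Q) (Z : Γ) (x : α) : Prop :=
  ∀ n s', ¬ M.Run (s, [Z]) (List.replicate n x) (s', [])

/-- `ℤ² * ℤ`. -/
abbrev G := Monoid.Coprod (Multiplicative (ℤ × ℤ)) (Multiplicative ℤ)

/-- The element of `ℤ² ≤ ℤ² * ℤ` given by a vector. -/
def zz (v : ℤ × ℤ) : G := Monoid.Coprod.inl (Multiplicative.ofAdd v)

/-- The letters: `a, a⁻¹, b, b⁻¹, c, c⁻¹`. -/
def letter : Fin 6 → G :=
  ![Monoid.Coprod.inl (Multiplicative.ofAdd ((1, 0) : ℤ × ℤ)),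
    (Monoid.Coprod.inl (Multiplicative.ofAdd ((1, 0) : ℤ × ℤ)))⁻¹,
    Monoid.Coprod.inl (Multiplicative.ofAdd ((0, 1) : ℤ × ℤ)),
    (Monoid.Coprod.inl (Multiplicative.ofAdd ((0, 1) : ℤ × ℤ)))⁻¹,
    Monoid.Coprod.inr (Multiplicative.ofAdd (1 : ℤ)),
    (Monoid.Coprod.inr (Multiplicative.ofAdd (1 : ℤ)))⁻¹]

/-- The value of a word in `ℤ² * ℤ`. -/
def ev (w : List (Fin 6)) : G := (w.map letter).prod

theorem ev_nil : ev [] = 1 := rfl

theorem ev_append (u v : List (Fin 6)) : ev (u ++ v) = ev u * ev v := by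
  simp [ev, List.map_append, List.prod_append]

theorem zz_add (u v : ℤ × ℤ) : zz (u + v) = zz u * zz v := by
  simp [zz, ofAdd_add, map_mul]

theorem zz_zero : zz 0 = 1 := by
  simp [zz]

theorem zz_neg (u : ℤ × ℤ) : zz (-u) = (zz u)⁻¹ := by
  simp [zz, ofAdd_neg, map_inv]

/-- Acceptance data of a confusion at a configuration `C`: two nonempty words of length at most
`B`, one of value `1`, the other of value in `Λ`, which cannot be distinguished by continuations
of length at most `R`. -/
def ConfAt (M : DPDA (Fin 6) Q Γ) (C : Q × List Γ) (Λ : Set (ℤ × ℤ)) (R B : ℕ) : Prop :=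
  ∃ p p' : List (Fin 6), p ≠ [] ∧ p' ≠ [] ∧ p.length ≤ B ∧ p'.length ≤ B ∧ ev p = 1 ∧
    (∃ v ∈ Λ, ev p' = zz v) ∧
    ∀ x : List (Fin 6), x.length ≤ R → (M.Acc C (p ++ x) ↔ M.Acc C (p' ++ x))

end DZ
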