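import Pool.Agent.helper9.DZ.Step1
import Pool.Agent.helper9.DZ.Cle
import Pool.Agent.helper9.DZ.Confined

/-! # The word problem of `ℤ² * ℤ` is not an intersection of deterministic context-free languages -/

set_option autoImplicit false

namespace DZ

theorem letter_four : letter 4 = Monoid.Coprod.inr (Multiplicative.ofAdd (1 : ℤ)) := rfl
theorem letter_five : letter 5 = (Monoid.Coprod.inr (Multiplicative.ofAdd (1 : ℤ)))⁻¹ := rfl

theorem ev_surjective (g : G) : ∃ w, ev w = g := by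
  have hz1 : ∀ n : ℤ, ∃ w, ev w = zz (n, 0) := by
    intro n
    obtain ⟨k, rfl | rfl⟩ := n.eq_nat_or_neg
    · refine ⟨List.replicate k 0, ?_⟩
      rw [ev_replicate letter_zero]
      congr 1
      simp
    · refine ⟨List.replicate k 1, ?_⟩
      rw [ev_replicate letter_one]
      congr 1
      simp
  have hz2 : ∀ n : ℤ, ∃ w, ev w = zz (0, n) := by
    intro n
    obtain ⟨k, rfl | rfl⟩ := n.eq_nat_or_neg
    · refine ⟨List.replicate k 2, ?_⟩
      rw [ev_replicate letter_two]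
      congr 1
      simp
    · refine ⟨List.replicate k 3, ?_⟩
      rw [ev_replicate letter_three]
      congr 1
      simp
  have hc : ∀ n : ℤ, ∃ w, ev w = Monoid.Coprod.inr (Multiplicative.ofAdd n) := by
    intro n
    obtain ⟨k, rfl | rfl⟩ := n.eq_nat_or_neg
    · refine ⟨List.replicate k 4, ?_⟩
      have : ev (List.replicate k 4) = letter 4 ^ k := by simp [ev]
      rw [this, letter_four, ← map_pow, ← ofAdd_nsmul]
      congr 2
      simp
    · refine ⟨List.replicate k 5, ?_⟩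
      have : ev (List.replicate k 5) = letter 5 ^ k := by simp [ev]
      rw [this, letter_five, inv_pow, ← map_pow, ← map_inv, ← ofAdd_nsmul, ← ofAdd_neg]
      congr 2
      simp
  induction g using Monoid.Coprod.induction_on with
  | inl v =>
    obtain ⟨w1, h1⟩ := hz1 v.toAdd.1
    obtain ⟨w2, h2⟩ := hz2 v.toAdd.2
    refine ⟨w1 ++ w2, ?_⟩
    rw [ev_append, h1, h2, ← zz_add]
    rw [zz]
    congr 1
    show Multiplicative.ofAdd _ = v
    simp
  | inr n =>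
    obtain ⟨w, h⟩ := hc n.toAdd
    exact ⟨w, h⟩
  | mul x y hx hy =>
    obtain ⟨w1, h1⟩ := hx
    obtain ⟨w2, h2⟩ := hy
    exact ⟨w1 ++ w2, by rw [ev_append, h1, h2]⟩

/-- From the confusion lemma to the hypothesis of the soft part. -/
theorem cle_of_dpda {Q Γ : Type} [Finite Q] [Finite Γ] (M : DPDA (Fin 6) Q Γ)
    (hWP : ∀ w, ev w = 1 → w ∈ M.lang) :
    ∃ Λ : Finset (ℤ × ℤ), 0 ∉ Λ ∧ ∀ U : Ultrafilter (List (Fin 6)), ∃ v ∈ Λ, ∃ p ∈ TT ev 1,
      ∃ p' ∈ TT ev (zz v), act (act M.lang U) p = act (act M.lang U) p' := by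
  classical
  obtain ⟨Λ, hΛ, h0, hconf⟩ := confusion M
  have hlive0 : M.Live (M.start, [M.bot]) := by
    intro v
    obtain ⟨z, hz⟩ := ev_surjective (ev v)⁻¹
    obtain ⟨C', h, -⟩ := hWP (v ++ z) (by rw [ev_append, hz, mul_inv_cancel])
    obtain ⟨C₁, h1, -⟩ := h.split_word
    exact ⟨C₁, h1⟩
  refine ⟨hΛ.toFinset, by simpa using h0, fun U => ?_⟩
  have hCL : ∀ R : ℕ, ∃ P : Set (List (Fin 6) × List (Fin 6)), P.Finite ∧ ∀ w, ∃ p ∈ P,
      ev p.1 = 1 ∧ ev p.2 ∈ zz '' Λ ∧ ∀ x : List (Fin 6), x.length ≤ R →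
        (w ++ (p.1 ++ x) ∈ M.lang ↔ w ++ (p.2 ++ x) ∈ M.lang) := by
    intro R
    obtain ⟨B, hB⟩ := hconf R
    refine ⟨{l | l.length ≤ B} ×ˢ {l | l.length ≤ B},
      (List.finite_length_le (Fin 6) B).prod (List.finite_length_le (Fin 6) B), fun w => ?_⟩
    obtain ⟨C, hC⟩ := hlive0 w
    have hL : M.Live C := hlive0.run 0 hC
    obtain ⟨p, p', hp, hp', hl, hl', hv, ⟨v, hvΛ, hv'⟩, hacc⟩ := hB C hL
    refine ⟨(p, p'), ⟨hl, hl'⟩, hv, ⟨v, hvΛ, hv'.symm⟩, fun x hx => ?_⟩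
    have e1 : w ++ (p ++ x) ∈ M.lang ↔ M.Acc C (p ++ x) := DPDA.acc_run hC (by simp [hp])
    have e2 : w ++ (p' ++ x) ∈ M.lang ↔ M.Acc C (p' ++ x) := DPDA.acc_run hC (by simp [hp'])
    rw [e1, e2]
    exact hacc x hx
  obtain ⟨g, ⟨v, hv, rfl⟩, h⟩ := cle_of_finite M.lang (zz '' Λ) (hΛ.image _) hCL U
  exact ⟨v, by simpa using hv, h⟩

/-- A deterministic context-free language. -/
theorem main {k : ℕ} (L : Fin k → Set (List (Fin 6)))
    (hL : ∀ i, ∃ (Q Γ : Type) (_ : Finite Q) (_ : Finite Γ) (M : DPDA (Fin 6) Q Γ), M.lang = L i)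
    (hWP : ∀ w, ev w = 1 → ∀ i, w ∈ L i) : ∃ w, ev w ≠ 1 ∧ ∀ i, w ∈ L i := by
  classical
  have h : ∀ i, ∃ Λ : Finset (ℤ × ℤ), 0 ∉ Λ ∧ ∀ U : Ultrafilter (List (Fin 6)), ∃ v ∈ Λ,
      ∃ p ∈ TT ev 1, ∃ p' ∈ TT ev (zz v), act (act (L i) U) p = act (act (L i) U) p' := by
    intro i
    obtain ⟨Q, Γ, hQ, hΓ, M, hM⟩ := hL i
    rw [← hM]
    exact cle_of_dpda M (fun w hw => hM ▸ hWP w hw i)
  choose Λ h0 hΛ using h
  refine soft_main ev_append ev_nil ev_surjective L hWP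
    (zz '' (Finset.univ.biUnion Λ : Finset (ℤ × ℤ))) ?_ ?_
  · intro i U
    obtain ⟨v, hv, h⟩ := hΛ i U
    exact ⟨zz v, ⟨v, Finset.mem_coe.2 (Finset.mem_biUnion.2 ⟨i, Finset.mem_univ i, hv⟩), rfl⟩, h⟩
  · intro H hH
    refine group_main (Finset.univ.biUnion Λ) ?_ k H ?_
    · intro h
      obtain ⟨i, -, h⟩ := Finset.mem_biUnion.1 h
      exact h0 i h
    · intro i g
      obtain ⟨_, ⟨v, hv, rfl⟩, h⟩ := hH i g
      exact ⟨v, Finset.mem_coe.1 hv, h⟩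

end DZ
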