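import Pool.Agent.helper9.DZ.Defs

/-! # The group theorem: confined subgroups of `ℤ² * ℤ` -/

set_option autoImplicit false

open Matrix

namespace DZ

/-- Gallai's theorem with a finite set of homothety data. -/
theorem gallai_fin (S : Finset (ℤ × ℤ)) (κ : Type) [Finite κ] :
    ∃ F : Set (ℕ × (ℤ × ℤ)), F.Finite ∧ (∀ p ∈ F, 1 ≤ p.1) ∧
      ∀ C : ℤ × ℤ → κ, ∃ p ∈ F, ∃ c, ∀ s ∈ S, C (p.1 • s + p.2) = c := by
  classical
  obtain ⟨ι, _inst, hι⟩ := Combinatorics.Line.exists_mono_in_high_dimension S κ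
  refine ⟨Set.range (fun g : {g : ι → Option S // ∃ i, g i = none} =>
    ((({i | g.1 i = none} : Finset ι).card,
      ∑ i ∈ ({i | g.1 i = none} : Finset ι)ᶜ, ((g.1 i).map (fun m : S => (m : ℤ × ℤ))).getD 0) :
      ℕ × (ℤ × ℤ))), Set.finite_range _, ?_, fun C => ?_⟩
  · rintro _ ⟨⟨g, i, hi⟩, rfl⟩
    exact Finset.card_pos.mpr ⟨i, by simp [hi]⟩
  specialize hι fun v => C <| ∑ i, (v i : ℤ × ℤ)
  obtain ⟨l, c, hl⟩ := hι
  refine ⟨_, ⟨⟨l.idxFun, l.proper⟩, rfl⟩, c, ?_⟩
  intro x xs
  rw [← hl ⟨x, xs⟩]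
  clear hl
  show C ((({i | l.idxFun i = none} : Finset ι).card) • x + ∑ i ∈ ({i | l.idxFun i = none} :
    Finset ι)ᶜ, ((l.idxFun i).map (fun m : S => (m : ℤ × ℤ))).getD 0) = _
  set s : Finset ι := {i | l.idxFun i = none} with hs
  congr 1
  rw [← Finset.sum_add_sum_compl s]
  congr 1
  · rw [← Finset.sum_const]
    apply Finset.sum_congr rfl
    intro i hi
    rw [hs, Finset.mem_filter] at hi
    rw [l.apply_none _ _ hi.right, Subtype.coe_mk]
  · apply Finset.sum_congr rfl
    intro i hi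
    rw [hs, Finset.compl_filter, Finset.mem_filter] at hi
    obtain ⟨y, hy⟩ := Option.ne_none_iff_exists.mp hi.right
    simp [← hy, Option.map_some, Option.getD]

/-- The upper unipotent matrices. -/
noncomputable def upperHom : Multiplicative (ℤ × ℤ) →* Matrix (Fin 2) (Fin 2) ℝ where
  toFun v := !![1, ((v.toAdd.1 : ℝ) + v.toAdd.2 * √2); 0, 1]
  map_one' := by
    ext i j
    fin_cases i <;> fin_cases j <;> simp
  map_mul' v w := by
    ext i j
    fin_cases i <;> fin_cases j <;> simp [Matrix.mul_apply, Fin.sum_univ_two]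
    ring

/-- The lower unipotent matrices. -/
noncomputable def lowerHom : Multiplicative ℤ →* Matrix (Fin 2) (Fin 2) ℝ where
  toFun n := !![1, 0; (n.toAdd : ℝ), 1]
  map_one' := by
    ext i j
    fin_cases i <;> fin_cases j <;> simp
  map_mul' v w := by
    ext i j
    fin_cases i <;> fin_cases j <;> simp [Matrix.mul_apply, Fin.sum_univ_two]

/-- The representation. -/
noncomputable def rep : G →* Matrix (Fin 2) (Fin 2) ℝ := Monoid.Coprod.lift upperHom lowerHom

theorem rep_det (g : G) : (rep g).det = 1 := by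
  have h : (Matrix.detMonoidHom (n := Fin 2) (R := ℝ)).comp rep = 1 := by
    refine Monoid.Coprod.hom_ext ?_ ?_
    · ext v
      simp [rep, upperHom, Matrix.det_fin_two]
    · ext v
      simp [rep, lowerHom, Matrix.det_fin_two]
  exact DFunLike.congr_fun h g

theorem rep_inv (g : G) : rep g⁻¹ = (rep g).adjugate := by
  have h1 : rep g⁻¹ * rep g = 1 := by rw [← map_mul, inv_mul_cancel, map_one]
  have h2 : rep g * (rep g).adjugate = 1 := by
    rw [Matrix.mul_adjugate, rep_det, one_smul]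
  calc rep g⁻¹ = rep g⁻¹ * (rep g * (rep g).adjugate) := by rw [h2, mul_one]
    _ = (rep g).adjugate := by rw [← mul_assoc, h1, one_mul]

/-- The trace of the image. -/
noncomputable def tr (g : G) : ℝ := (rep g).trace

/-- Hyperbolic elements. -/
def hyp (g : G) : Prop := 2 < |tr g|

/-- The lower left entry. -/
noncomputable def ll (g : G) : ℝ := rep g 1 0

theorem hyp.ne_one {g : G} (h : hyp g) : g ≠ 1 := by
  rintro rfl
  simp [hyp, tr] at h

theorem tr_conj (g h : G) : tr (g * h * g⁻¹) = tr h := by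
  rw [tr, tr, map_mul, Matrix.trace_mul_comm, map_mul, ← mul_assoc, ← map_mul, inv_mul_cancel,
    map_one, one_mul]

theorem hyp_conj (g h : G) : hyp (g * h * g⁻¹) ↔ hyp h := by
  rw [hyp, hyp, tr_conj]

theorem rep_zz (v : ℤ × ℤ) : rep (zz v) = !![1, ((v.1 : ℝ) + v.2 * √2); 0, 1] := by
  rw [rep, zz, Monoid.Coprod.lift_apply_inl]
  rfl

theorem rep_inr (n : ℤ) : rep (Monoid.Coprod.inr (Multiplicative.ofAdd n)) =
    !![1, 0; (n : ℝ), 1] := by
  rw [rep, Monoid.Coprod.lift_apply_inr]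
  rfl

theorem tr_comm (v : ℤ × ℤ) (g : G) :
    tr (zz v * g * (zz v)⁻¹ * g⁻¹) = 2 + ((v.1 : ℝ) + v.2 * √2) ^ 2 * ll g ^ 2 := by
  have hdet := rep_det g
  rw [Matrix.det_fin_two] at hdet
  rw [tr, ll, map_mul, map_mul, map_mul, rep_inv, rep_inv, rep_zz, Matrix.adjugate_fin_two,
    Matrix.adjugate_fin_two, Matrix.eta_fin_two (rep g)]
  generalize rep g 0 0 = p at *
  generalize rep g 0 1 = q at *
  generalize rep g 1 0 = r at *
  generalize rep g 1 1 = s at *
  simp only [Matrix.mul_fin_two, Matrix.trace_fin_two_of, Matrix.of_apply, Matrix.cons_val',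
    Matrix.cons_val_zero, Matrix.cons_val_one]
  linear_combination (2 : ℝ) * hdet

/-- Conjugation by `c ^ N`. -/
theorem ll_conj (N : ℤ) (g : G) :
    ll (Monoid.Coprod.inr (Multiplicative.ofAdd N) * g *
      (Monoid.Coprod.inr (Multiplicative.ofAdd N))⁻¹) =
      rep g 1 0 + N * (rep g 0 0 - rep g 1 1) - N ^ 2 * rep g 0 1 := by
  rw [ll, map_mul, map_mul, rep_inv, rep_inr, Matrix.adjugate_fin_two,
    Matrix.eta_fin_two (rep g)]
  generalize rep g 0 0 = p at *
  generalize rep g 0 1 = q at *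
  generalize rep g 1 0 = r at *
  generalize rep g 1 1 = s at *
  simp only [Matrix.mul_fin_two, Matrix.of_apply, Matrix.cons_val',
    Matrix.cons_val_zero, Matrix.cons_val_one]
  ring

/-- The recursion for the traces of powers. -/
theorem tr_pow_succ (g : G) (d : ℕ) : tr (g ^ (d + 2)) = tr g * tr (g ^ (d + 1)) - tr (g ^ d) := by
  have h : rep g * rep g = tr g • rep g - 1 := by
    have hdet := rep_det g
    rw [Matrix.det_fin_two] at hdet
    rw [tr, Matrix.trace_fin_two]
    ext i j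
    fin_cases i <;> fin_cases j <;> simp [Matrix.mul_apply, Fin.sum_univ_two]
    · linear_combination -hdet
    · ring
    · ring
    · linear_combination -hdet
  have h2 : rep (g ^ (d + 2)) = tr g • rep (g ^ (d + 1)) - rep (g ^ d) := by
    rw [pow_add, pow_succ g d, map_mul, map_mul, pow_two, map_mul, h, mul_sub, mul_one, mul_smul_comm]
  rw [tr, h2, Matrix.trace_sub, Matrix.trace_smul, smul_eq_mul]
  rfl

theorem hyp.pow {g : G} (h : hyp g) (d : ℕ) : hyp (g ^ (d + 1)) := by
  have key : ∀ d, |tr (g ^ d)| ≤ |tr (g ^ (d + 1))| ∧ 2 < |tr (g ^ (d + 1))| := by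
    intro d
    induction d with
    | zero =>
      have h0 : tr (g ^ 0) = 2 := by simp [tr]
      rw [h0, zero_add, pow_one]
      refine ⟨?_, h⟩
      rw [abs_of_pos (by norm_num : (0 : ℝ) < 2)]
      exact h.le
    | succ d ih =>
      have h1 : |tr g * tr (g ^ (d + 1))| - |tr (g ^ d)| ≤ |tr (g ^ (d + 2))| := by
        rw [tr_pow_succ]
        exact abs_sub_abs_le_abs_sub _ _
      rw [abs_mul] at h1
      have h2 : 2 < |tr g| := h
      have h3 : 2 * |tr (g ^ (d + 1))| ≤ |tr g| * |tr (g ^ (d + 1))| :=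
        mul_le_mul_of_nonneg_right h2.le (abs_nonneg _)
      have h4 : |tr (g ^ (d + 1))| ≤ |tr (g ^ (d + 2))| := by linarith [ih.1]
      exact ⟨h4, lt_of_lt_of_le ih.2 h4⟩
  exact (key d).2

/-- For large exponents the lower left entry does not vanish. -/
theorem exists_conj (E : Set G) (hE : E.Finite) (hh : ∀ f ∈ E, hyp f) :
    ∃ N : ℤ, ∀ f ∈ E, ll (Monoid.Coprod.inr (Multiplicative.ofAdd N) * f *
      (Monoid.Coprod.inr (Multiplicative.ofAdd N))⁻¹) ≠ 0 := by
  -- the exceptional exponents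
  have hfin : ∀ f ∈ E, {N : ℤ | rep f 1 0 + N * (rep f 0 0 - rep f 1 1) - N ^ 2 * rep f 0 1
      = 0}.Finite := by
    intro f hf
    have hp : (Polynomial.C (rep f 1 0) + Polynomial.C (rep f 0 0 - rep f 1 1) * Polynomial.X -
        Polynomial.C (rep f 0 1) * Polynomial.X ^ 2 : Polynomial ℝ) ≠ 0 := by
      intro h0
      have c0 := congrArg (fun p => Polynomial.coeff p 0) h0
      have c1 := congrArg (fun p => Polynomial.coeff p 1) h0
      have c2 := congrArg (fun p => Polynomial.coeff p 2) h0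
      simp only [Polynomial.coeff_add, Polynomial.coeff_sub, Polynomial.coeff_C_mul,
        Polynomial.coeff_C, Polynomial.coeff_X, Polynomial.coeff_X_pow, Polynomial.coeff_zero]
        at c0 c1 c2
      norm_num at c0 c1 c2
      have hdet := rep_det f
      rw [Matrix.det_fin_two, c0] at hdet
      have h1 : rep f 0 0 = rep f 1 1 := by linarith
      have h2 := hh f hf
      rw [hyp, tr, Matrix.trace_fin_two, h1] at h2
      rw [h1] at hdet
      have h3 : (rep f 1 1 + rep f 1 1) ^ 2 = 4 := by nlinarith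
      have h4 : |rep f 1 1 + rep f 1 1| ^ 2 = 4 := by rw [sq_abs, h3]
      nlinarith [abs_nonneg (rep f 1 1 + rep f 1 1)]
    have h5 := (Polynomial.rootSet_finite (Polynomial.C (rep f 1 0) + Polynomial.C (rep f 0 0 -
      rep f 1 1) * Polynomial.X - Polynomial.C (rep f 0 1) * Polynomial.X ^ 2 :
      Polynomial ℝ) ℝ)
    refine Set.Finite.subset (h5.preimage (f := fun N : ℤ => (N : ℝ))
      (Int.cast_injective.injOn)) ?_
    intro N hN
    rw [Set.mem_preimage, Polynomial.mem_rootSet]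
    refine ⟨hp, ?_⟩
    have hN' : rep f 1 0 + N * (rep f 0 0 - rep f 1 1) - N ^ 2 * rep f 0 1 = 0 := hN
    simp only [map_add, map_sub, map_mul, map_pow, Polynomial.aeval_C, Polynomial.aeval_X,
      Algebra.algebraMap_self, RingHom.id_apply]
    linarith
  have h6 : (⋃ f ∈ E, {N : ℤ | rep f 1 0 + N * (rep f 0 0 - rep f 1 1) - N ^ 2 * rep f 0 1
      = 0}).Finite := hE.biUnion hfin
  obtain ⟨N, hN⟩ := h6.infinite_compl.nonempty
  refine ⟨N, fun f hf h => hN ?_⟩
  rw [ll_conj] at h
  exact Set.mem_biUnion hf h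

end DZ
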