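import Pool.Agent.helper9.DZ.Basics

/-! # Hidden blocks: a deeply buried block `η ^ n` looks like `η ^ (n + π)` -/

set_option autoImplicit false

namespace DZ

variable {α Q Γ : Type} {M : DPDA α Q Γ}

/-- `n` copies of the block `η`. -/
def blk (η : List Γ) (n : ℕ) : List Γ := (List.replicate n η).flatten

theorem blk_zero (η : List Γ) : blk η 0 = [] := rfl

theorem blk_succ (η : List Γ) (n : ℕ) : blk η (n + 1) = η ++ blk η n := by
  simp [blk, List.replicate_succ]

theorem blk_add (η : List Γ) (m n : ℕ) : blk η (m + n) = blk η m ++ blk η n := by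
  rw [blk, List.replicate_add, List.flatten_append]
  rfl

theorem blk_one (η : List Γ) : blk η 1 = η := by simp [blk]

theorem blk_blk (η : List Γ) (m n : ℕ) : blk (blk η m) n = blk η (m * n) := by
  induction n with
  | zero => simp [blk_zero]
  | succ n ih => rw [blk_succ, ih, Nat.mul_succ, Nat.add_comm, blk_add]

/-- The relation: the stack `κ` is popped without reading. -/
def Pop (M : DPDA α Q Γ) (κ : List Γ) (s s' : Q) : Prop := M.Run (s, κ) [] (s', [])

theorem pop_append (κ δ : List Γ) (s s' : Q) :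
    Pop M (κ ++ δ) s s' ↔ ∃ t, Pop M κ s t ∧ Pop M δ t s' := by
  constructor
  · intro h
    rcases DPDA.Run.split_stack h with ⟨κ', h1, h2⟩ | ⟨w₁, w₂, t, h0, h1, h2⟩
    · simp only [List.nil_eq, List.append_eq_nil_iff] at h1
      obtain ⟨rfl, rfl⟩ := h1
      exact ⟨s', h2, DPDA.Run.refl _⟩
    · simp only [List.nil_eq, List.append_eq_nil_iff] at h0
      obtain ⟨rfl, rfl⟩ := h0
      exact ⟨t, h1, h2⟩
  · rintro ⟨t, h1, h2⟩
    exact (h1.local' δ).trans h2

theorem pop_functional {κ : List Γ} {s s' s'' : Q} (h : Pop M κ s s') (h' : Pop M κ s s'') :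
    s' = s'' := DPDA.Run.pop_unique h h'

/-- There is a positive multiple of the block whose pop relation is idempotent. -/
theorem exists_idem [Finite Q] (M : DPDA α Q Γ) (η : List Γ) :
    ∃ π, 1 ≤ π ∧ ∀ s s', Pop M (blk η π) s s' → Pop M (blk η π) s' s' := by
  -- the pop relations of `blk η n`
  let P : ℕ → Q → Q → Prop := fun n => Pop M (blk η n)
  have hadd : ∀ m n s s', P (m + n) s s' ↔ ∃ t, P m s t ∧ P n t s' := by
    intro m n s s'
    show Pop M (blk η (m + n)) s s' ↔ _
    rw [blk_add, pop_append]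
  obtain ⟨m, n, hne, hmn⟩ := Finite.exists_ne_map_eq_of_infinite (fun i : ℕ => P (i + 1))
  wlog hlt : m < n generalizing m n
  · exact this n m hne.symm hmn.symm (by omega)
  obtain ⟨ρ, hρ, rfl⟩ : ∃ ρ, 1 ≤ ρ ∧ n = m + ρ := ⟨n - m, by omega, by omega⟩
  -- periodic from `m + 1` on
  have hper : ∀ j, P (m + 1 + j) = P (m + 1 + j + ρ) := by
    intro j
    have h1 : P (m + 1) = P (m + 1 + ρ) := by
      have := hmn
      rw [show m + 1 + ρ = m + ρ + 1 by omega]
      exact this
    funext s s'
    rw [show m + 1 + j + ρ = (m + 1 + ρ) + j by omega]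
    apply propext
    rw [hadd, hadd, h1]
  have hper2 : ∀ i j, P (m + 1 + j) = P (m + 1 + j + i * ρ) := by
    intro i
    induction i with
    | zero => intro j; simp
    | succ i ih =>
      intro j
      rw [ih j, show m + 1 + j + i * ρ = m + 1 + (j + i * ρ) by omega, hper]
      congr 1
      ring
  refine ⟨(m + 1) * ρ, Nat.mul_pos (Nat.succ_pos m) hρ, ?_⟩
  have hid : P ((m + 1) * ρ) = P ((m + 1) * ρ + (m + 1) * ρ) := by
    obtain ⟨j, hj⟩ : ∃ j, (m + 1) * ρ = m + 1 + j := by
      refine ⟨(m + 1) * ρ - (m + 1), ?_⟩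
      have : (m + 1) * 1 ≤ (m + 1) * ρ := Nat.mul_le_mul_left _ hρ
      omega
    have := hper2 (m + 1) j
    rw [← hj] at this
    exact this
  intro s s' h
  have h1 : P ((m + 1) * ρ + (m + 1) * ρ) s s' := by rw [← hid]; exact h
  obtain ⟨t, h2, h3⟩ := (hadd _ _ _ _).1 h1
  have : t = s' := pop_functional h2 h
  subst this
  exact h3

/-- The main induction, for a block whose pop relation is idempotent. -/
theorem hidden_idem (η : List Γ) (hid : ∀ s s', Pop M η s s' → Pop M η s' s') (R : ℕ) :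
    ∃ n₀, ∀ n ≥ n₀, ∀ (s : Q) (γ : List Γ) (v : List α), v.length ≤ R →
      (M.Acc (s, blk η n ++ γ) v ↔ M.Acc (s, blk η (n + 1) ++ γ) v) := by
  induction R using Nat.strong_induction_on with
  | _ R ih =>
    -- a common threshold for shorter words
    have h1 : ∃ n₁, ∀ n ≥ n₁, ∀ (s : Q) (γ : List Γ) (v : List α), v.length < R →
        (M.Acc (s, blk η n ++ γ) v ↔ M.Acc (s, blk η (n + 1) ++ γ) v) := by
      cases R with
      | zero => exact ⟨0, fun n _ s γ v hv => absurd hv (by omega)⟩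
      | succ R =>
        obtain ⟨n₁, h⟩ := ih R (by omega)
        exact ⟨n₁, fun n hn s γ v hv => h n hn s γ v (by omega)⟩
    obtain ⟨n₁, h1⟩ := h1
    refine ⟨n₁ + 2, fun n hn s γ v hv => ?_⟩
    by_cases hvR : v.length < R
    · exact h1 n (by omega) s γ v hvR
    -- unrolling
    let B : ℕ → Q → Prop := fun n s => M.Acc (s, η) v ∨
      ∃ s' v₁ v₂, v = v₁ ++ v₂ ∧ v₁ ≠ [] ∧ M.Run (s, η) v₁ (s', []) ∧
        M.Acc (s', blk η n ++ γ) v₂
    have hF : ∀ n s, M.Acc (s, blk η (n + 1) ++ γ) v ↔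
        B n s ∨ ∃ s', Pop M η s s' ∧ M.Acc (s', blk η n ++ γ) v := by
      intro n s
      rw [blk_succ, List.append_assoc, DPDA.acc_append]
      constructor
      · rintro (h | ⟨s', v₁, v₂, hv12, h2, h3⟩)
        · exact Or.inl (Or.inl h)
        · by_cases hv1 : v₁ = []
          · subst hv1
            refine Or.inr ⟨s', h2, ?_⟩
            simpa [hv12] using h3
          · exact Or.inl (Or.inr ⟨s', v₁, v₂, hv12, hv1, h2, h3⟩)
      · rintro ((h | ⟨s', v₁, v₂, hv12, -, h2, h3⟩) | ⟨s', h2, h3⟩)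
        · exact Or.inl h
        · exact Or.inr ⟨s', v₁, v₂, hv12, h2, h3⟩
        · exact Or.inr ⟨s', [], v, rfl, h2, h3⟩
    have hB : ∀ n ≥ n₁, ∀ s, B n s ↔ B (n + 1) s := by
      intro n hn s
      refine or_congr Iff.rfl ?_
      refine exists_congr fun s' => exists_congr fun v₁ => exists_congr fun v₂ => ?_
      constructor
      · rintro ⟨h2, h3, h4, h5⟩
        refine ⟨h2, h3, h4, (h1 n hn s' γ v₂ ?_).1 h5⟩
        have := congrArg List.length h2
        have h6 := List.length_pos_of_ne_nil h3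
        simp only [List.length_append] at this
        omega
      · rintro ⟨h2, h3, h4, h5⟩
        refine ⟨h2, h3, h4, (h1 n hn s' γ v₂ ?_).2 h5⟩
        have := congrArg List.length h2
        have h6 := List.length_pos_of_ne_nil h3
        simp only [List.length_append] at this
        omega
    -- at idempotent states
    have hI : ∀ n ≥ n₁ + 1, ∀ s, Pop M η s s → (M.Acc (s, blk η n ++ γ) v ↔
        M.Acc (s, blk η (n + 1) ++ γ) v) := by
      intro n hn s hs
      obtain ⟨m, rfl⟩ : ∃ m, n = m + 1 := ⟨n - 1, by omega⟩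
      have e : ∀ n, (∃ s', Pop M η s s' ∧ M.Acc (s', blk η n ++ γ) v) ↔
          M.Acc (s, blk η n ++ γ) v := by
        intro n
        constructor
        · rintro ⟨s', h, h'⟩
          rwa [pop_functional h hs] at h'
        · exact fun h => ⟨s, hs, h⟩
      have h2 := hF m s
      have h3 := hF (m + 1) s
      rw [e] at h2 h3
      have h4 := hB m (by omega) s
      rw [h3, ← h4]
      constructor
      · exact fun h => Or.inr h
      · rintro (h | h)
        · exact h2.2 (Or.inl h)
        · exact h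
    obtain ⟨m, rfl⟩ : ∃ m, n = m + 1 := ⟨n - 1, by omega⟩
    rw [hF m s, hF (m + 1) s, hB m (by omega) s]
    refine or_congr Iff.rfl (exists_congr fun s' => and_congr_right fun h => ?_)
    exact hI m (by omega) s' (hid s s' h)

/-- Hidden blocks. -/
theorem hidden [Finite Q] (M : DPDA α Q Γ) (η : List Γ) :
    ∃ π, 1 ≤ π ∧ ∀ R, ∃ n₀, ∀ n ≥ n₀, ∀ (s : Q) (κ γ : List Γ) (v : List α), v.length ≤ R →
      (M.Acc (s, κ ++ (blk η n ++ γ)) v ↔ M.Acc (s, κ ++ (blk η (n + π) ++ γ)) v) := by
  obtain ⟨π, hπ, hid⟩ := exists_idem M η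
  refine ⟨π, hπ, fun R => ?_⟩
  obtain ⟨n₀, h⟩ := hidden_idem (M := M) (blk η π) hid R
  refine ⟨π * n₀, fun n hn s κ γ v hv => ?_⟩
  obtain ⟨m, rfl⟩ : ∃ m, n = π * n₀ + m := ⟨n - π * n₀, by omega⟩
  have key : ∀ (s : Q) (v : List α), v.length ≤ R →
      (M.Acc (s, blk η (π * n₀ + m) ++ γ) v ↔ M.Acc (s, blk η (π * n₀ + m + π) ++ γ) v) := by
    intro s v hv
    have := h n₀ le_rfl s (blk η m ++ γ) v hv
    rw [blk_blk, blk_blk, ← List.append_assoc, ← List.append_assoc, ← blk_add, ← blk_add] at this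
    rw [this]
    have e : π * (n₀ + 1) + m = π * n₀ + m + π := by ring
    rw [e]
  rw [DPDA.acc_append, DPDA.acc_append]
  refine or_congr Iff.rfl ?_
  refine exists_congr fun s' => exists_congr fun v₁ => exists_congr fun v₂ =>
    and_congr_right fun h2 => and_congr_right fun _ => ?_
  refine key s' v₂ ?_
  have := congrArg List.length h2
  simp only [List.length_append] at this
  omega

end DZ
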