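import Pool.Agent.helper9.DZ.Hidden

/-! # Loops of the runs `x x x x ...` which never pop a symbol -/

set_option autoImplicit false

namespace DZ

variable {α Q Γ : Type} {M : DPDA α Q Γ}

/-- Either `δ` is popped by a power of `x`, or the reading of `x`'s stops at some symbol. -/
theorem stair (M : DPDA α Q Γ) (x : α) (δ : List Γ) (s : Q) :
    (∃ n s', M.Run (s, δ) (List.replicate n x) (s', [])) ∨
      ∃ μ Z ν m s₂, δ = μ ++ Z :: ν ∧ M.Run (s, μ) (List.replicate m x) (s₂, []) ∧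
        M.NP s₂ Z x := by
  induction δ generalizing s with
  | nil => exact Or.inl ⟨0, s, DPDA.Run.refl _⟩
  | cons Z δ ih =>
    by_cases h : M.NP s Z x
    · exact Or.inr ⟨[], Z, δ, 0, s, rfl, DPDA.Run.refl _, h⟩
    · simp only [DPDA.NP, not_forall, not_not] at h
      obtain ⟨n, t, h⟩ := h
      rcases ih t with ⟨m, s', h'⟩ | ⟨μ, Z', ν, m, s₂, rfl, h1, h2⟩
      · refine Or.inl ⟨n + m, s', ?_⟩
        rw [replicate_add']
        exact (h.local' δ).trans h'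
      · refine Or.inr ⟨Z :: μ, Z', ν, n + m, s₂, rfl, ?_, h2⟩
        rw [replicate_add']
        exact (h.local' μ).trans h1

/-- `Z` is never popped by powers of `x`, and all powers of `x` can be read. -/
def NL (M : DPDA α Q Γ) (s : Q) (Z : Γ) (x : α) : Prop :=
  M.NP s Z x ∧ ∀ n, ∃ C', M.Run (s, [Z]) (List.replicate n x) C'

/-- Readability of powers of `x` passes to the top symbol if it is never popped. -/
theorem nl_of_read {s : Q} {Z : Γ} {γ : List Γ} {x : α} (hNP : M.NP s Z x)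
    (h : ∀ n, ∃ C', M.Run (s, Z :: γ) (List.replicate n x) C') : NL M s Z x := by
  refine ⟨hNP, fun n => ?_⟩
  obtain ⟨C', h'⟩ := h n
  have h' : M.Run (s, [Z] ++ γ) (List.replicate n x) C' := h'
  rcases h'.split_stack with ⟨κ', -, h2⟩ | ⟨w₁, w₂, t, h0, h1, -⟩
  · exact ⟨_, h2⟩
  · have e1 : w₁ = List.replicate w₁.length x := by
      refine List.eq_replicate_of_mem (fun b hb => ?_)
      exact List.eq_of_mem_replicate (h0 ▸ List.mem_append_left _ hb)
    rw [e1] at h1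
    exact absurd h1 (hNP _ _)

theorem NL.succ {s : Q} {Z : Γ} {x : α} (h : NL M s Z x) :
    ∃ s' Z' ν m n, 1 ≤ n ∧ M.RunN n (s, [Z]) (List.replicate m x) (s', Z' :: ν) ∧
      NL M s' Z' x := by
  -- the first move
  have h1 : ∃ m₀ s₁ μ, M.RunN 1 (s, [Z]) (List.replicate m₀ x) (s₁, μ) := by
    obtain ⟨C', k, hk⟩ := h.2 1
    cases hk with
    | @eps n _ q' _ μ _ _ _ h' h₂' =>
      have := DPDA.RunN.eps (M := M) (γ := []) h' (DPDA.RunN.refl (q', μ ++ []))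
      exact ⟨0, q', μ ++ [], this⟩
    | @read n _ q' _ μ _ _ _ _ h' h₂' =>
      have := DPDA.RunN.read (M := M) (γ := []) h' (DPDA.RunN.refl (q', μ ++ []))
      exact ⟨1, q', μ ++ [], this⟩
  obtain ⟨m₀, s₁, μ, h1⟩ := h1
  rcases stair M x μ s₁ with ⟨n, s', h2⟩ | ⟨μ₁, Z', ν, m, s', rfl, ⟨n, h2⟩, h3⟩
  · exfalso
    refine h.1 (m₀ + n) s' ?_
    rw [replicate_add']
    exact DPDA.Run.trans ⟨1, h1⟩ h2
  · have h4 : M.RunN (1 + n) (s, [Z]) (List.replicate (m₀ + m) x) (s', Z' :: ν) := by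
      rw [replicate_add']
      exact h1.trans (h2.local' (Z' :: ν))
    refine ⟨s', Z', ν, m₀ + m, 1 + n, by omega, h4, ?_⟩
    refine nl_of_read (γ := ν) h3 (fun j => ?_)
    obtain ⟨C', h5⟩ := h.2 (m₀ + m + (j + 1))
    rw [replicate_add'] at h5
    have h6 := DPDA.Run.det ⟨_, h4⟩ h5 (by simp)
    rw [replicate_add'] at h6
    obtain ⟨C₁, h7, -⟩ := h6.split_word
    exact ⟨C₁, h7⟩

/-- Loops. -/
theorem exists_loop [Finite Q] [Finite Γ] {s : Q} {Z : Γ} {x : α} (h : NL M s Z x) :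
    ∃ n₁ ρ q' Y ν η, 1 ≤ ρ ∧ M.Run (s, [Z]) (List.replicate n₁ x) (q', Y :: ν) ∧
      M.Run (q', [Y]) (List.replicate ρ x) (q', Y :: η) := by
  classical
  let S := {p : Q × Γ // NL M p.1 p.2 x}
  have hsucc : ∀ p : S, ∃ p' : S, ∃ ν m n, 1 ≤ n ∧
      M.RunN n (p.1.1, [p.1.2]) (List.replicate m x) (p'.1.1, p'.1.2 :: ν) := by
    rintro ⟨⟨s, Z⟩, hp⟩
    obtain ⟨s', Z', ν, m, n, hn, hr, hnl⟩ := hp.succ
    exact ⟨⟨(s', Z'), hnl⟩, ν, m, n, hn, hr⟩
  choose f hf using hsucc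
  -- composition
  have hiter : ∀ k (p : S), ∃ ν m n, k ≤ n ∧
      M.RunN n (p.1.1, [p.1.2]) (List.replicate m x) ((f^[k] p).1.1, (f^[k] p).1.2 :: ν) := by
    intro k
    induction k with
    | zero => exact fun p => ⟨[], 0, 0, le_rfl, DPDA.RunN.refl _⟩
    | succ k ih =>
      intro p
      obtain ⟨ν, m, n, hn, hr⟩ := hf p
      obtain ⟨ν', m', n', hn', hr'⟩ := ih (f p)
      refine ⟨ν' ++ ν, m + m', n + n', by omega, ?_⟩
      rw [replicate_add']
      have := hr.trans (hr'.local' ν)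
      simpa using this
  let p₀ : S := ⟨(s, Z), h⟩
  obtain ⟨i, j, hne, hij⟩ := Finite.exists_ne_map_eq_of_infinite (fun i : ℕ => f^[i] p₀)
  wlog hlt : i < j generalizing i j
  · exact this j i hne.symm hij.symm (by omega)
  replace hij : f^[i] p₀ = f^[j] p₀ := hij
  have hj : f^[j] p₀ = f^[j - i] (f^[i] p₀) := by
    rw [← Function.iterate_add_apply]
    congr 1
    omega
  obtain ⟨ν, n₁, k₁, -, hr1⟩ := hiter i p₀
  obtain ⟨η, ρ, k, hk, hr2⟩ := hiter (j - i) (f^[i] p₀)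
  rw [← hj, ← hij] at hr2
  refine ⟨n₁, ρ, (f^[i] p₀).1.1, (f^[i] p₀).1.2, ν, η, ?_, ⟨_, hr1⟩, ⟨_, hr2⟩⟩
  -- `ρ ≥ 1`
  by_contra hρ
  have hρ0 : ρ = 0 := by omega
  subst hρ0
  obtain ⟨C', N, hN⟩ := (f^[i] p₀).2.2 1
  have hloop : ∀ l, ∃ δ N', l ≤ N' ∧
      M.RunN N' ((f^[i] p₀).1.1, [(f^[i] p₀).1.2]) [] ((f^[i] p₀).1.1, (f^[i] p₀).1.2 :: δ) := by
    intro l
    induction l with
    | zero => exact ⟨[], 0, le_rfl, DPDA.RunN.refl _⟩
    | succ l ih =>
      obtain ⟨δ, N', hN', hr⟩ := ih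
      have := hr.trans (hr2.local' δ)
      exact ⟨η ++ δ, N' + k, by omega, by simpa using this⟩
  obtain ⟨δ, N', hN', hr⟩ := hloop (N + 1)
  have hN1 : M.RunN N ((f^[i] p₀).1.1, [(f^[i] p₀).1.2]) ([] ++ [x]) C' := by simpa using hN
  obtain ⟨k', hk', -⟩ := hr.det hN1 (by simp)
  omega

/-- Powers of a loop. -/
theorem loop_pow {q : Q} {Y : Γ} {η : List Γ} {ρ : ℕ} {x : α}
    (h : M.Run (q, [Y]) (List.replicate ρ x) (q, Y :: η)) (j : ℕ) :
    M.Run (q, [Y]) (List.replicate (j * ρ) x) (q, Y :: blk η j) := by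
  induction j with
  | zero => simpa [blk_zero] using DPDA.Run.refl _
  | succ j ih =>
    rw [Nat.succ_mul, replicate_add', blk_succ]
    have := ih.trans (h.local' (blk η j))
    simpa using this

end DZ
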