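import Pool.Agent.helper9.DZ.Defs

/-! # The soft part: ultrafilters on words

`act ξ U` is the limit along `U` of the quotients `u⁻¹ ξ`. -/

set_option autoImplicit false
set_option linter.unusedSectionVars false

open Filter

namespace DZ

variable {α : Type}

/-- The limit of the left quotients of `ξ` along an ultrafilter of words. -/
def act (ξ : Set (List α)) (U : Ultrafilter (List α)) : Set (List α) :=
  {x | ∀ᶠ u in (U : Filter (List α)), u ++ x ∈ ξ}

/-- Product of ultrafilters on words. -/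
def star (U V : Ultrafilter (List α)) : Ultrafilter (List α) :=
  V.bind (fun v => U.map (fun u => u ++ v))

theorem eventually_star (U V : Ultrafilter (List α)) (P : List α → Prop) :
    (∀ᶠ w in (star U V : Filter (List α)), P w) ↔
      ∀ᶠ v in (V : Filter (List α)), ∀ᶠ u in (U : Filter (List α)), P (u ++ v) := by
  rfl

theorem mem_star (U V : Ultrafilter (List α)) (A : Set (List α)) :
    A ∈ star U V ↔ {v | {u | u ++ v ∈ A} ∈ U} ∈ V := Iff.rfl

theorem mem_act (ξ : Set (List α)) (U : Ultrafilter (List α)) (x : List α) :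
    x ∈ act ξ U ↔ ∀ᶠ u in (U : Filter (List α)), u ++ x ∈ ξ := Iff.rfl

theorem act_act (ξ : Set (List α)) (U V : Ultrafilter (List α)) :
    act (act ξ U) V = act ξ (star U V) := by
  ext x
  simp only [mem_act, eventually_star, List.append_assoc]

theorem star_assoc (U V W : Ultrafilter (List α)) :
    star (star U V) W = star U (star V W) := by
  ext A
  simp only [mem_star, Set.mem_ofPred_eq, List.append_assoc]

theorem continuous_star (U : Ultrafilter (List α)) : Continuous (star U) := by
  refine continuous_generateFrom_iff.2 ?_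
  rintro _ ⟨A, rfl⟩
  exact ultrafilter_isOpen_basic {v | {u | u ++ v ∈ A} ∈ U}

section

variable {G : Type} [Group G] (ev : List α → G)

/-- The ultrafilters concentrated on the words of value `g`. -/
def TT (g : G) : Set (Ultrafilter (List α)) := {U | {w | ev w = g} ∈ U}

theorem mem_TT (g : G) (U : Ultrafilter (List α)) : U ∈ TT ev g ↔ {w | ev w = g} ∈ U := Iff.rfl

theorem pure_mem_TT (w : List α) : (pure w : Ultrafilter (List α)) ∈ TT ev (ev w) := by
  rw [mem_TT, Ultrafilter.mem_pure]
  rfl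

theorem isClosed_TT (g : G) : IsClosed (TT ev g) := ultrafilter_isClosed_basic _

variable {ev}

theorem star_mem_TT (happ : ∀ u v, ev (u ++ v) = ev u * ev v) {g h : G}
    {U V : Ultrafilter (List α)} (hU : U ∈ TT ev g) (hV : V ∈ TT ev h) :
    star U V ∈ TT ev (g * h) := by
  rw [mem_TT, mem_star]
  rw [mem_TT] at hU hV
  filter_upwards [hV] with v hv
  filter_upwards [hU] with u hu
  show ev (u ++ v) = g * h
  rw [happ, show ev u = g from hu, show ev v = h from hv]

/-- Recurrence: a minimal right ideal. -/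
theorem exists_recurrent (hnil : ev [] = 1) (happ : ∀ u v, ev (u ++ v) = ev u * ev v) :
    ∃ r₀ ∈ TT ev 1, ∀ r ∈ TT ev 1, ∃ r' ∈ TT ev 1, star (star r₀ r) r' = r₀ := by
  let S : Set (Set (Ultrafilter (List α))) :=
    {N | IsClosed N ∧ N.Nonempty ∧ N ⊆ TT ev 1 ∧ ∀ r ∈ N, ∀ p ∈ TT ev 1, star r p ∈ N}
  have hT1 : ∀ r ∈ TT ev 1, ∀ p ∈ TT ev 1, star r p ∈ TT ev 1 := by
    intro r hr p hp
    have := star_mem_TT happ hr hp
    rwa [mul_one] at this
  have hTS : TT ev 1 ∈ S := by
    refine ⟨isClosed_TT ev 1, ⟨pure [], ?_⟩, subset_rfl, hT1⟩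
    have := pure_mem_TT ev []
    rwa [hnil] at this
  rsuffices ⟨N, hN⟩ : ∃ N, Minimal (· ∈ S) N
  · obtain ⟨-, ⟨r₀, hr₀⟩, hNT, hNi⟩ := hN.prop
    refine ⟨r₀, hNT hr₀, fun r hr => ?_⟩
    have key : star (star r₀ r) '' TT ev 1 = N := by
      apply hN.eq_of_subset
      · refine ⟨(continuous_star _).isClosedMap _ (isClosed_TT ev 1), hTS.2.1.image _, ?_, ?_⟩
        · rintro _ ⟨p, hp, rfl⟩
          exact hT1 _ (hT1 _ (hNT hr₀) _ hr) _ hp
        · rintro _ ⟨p, hp, rfl⟩ q hq
          exact ⟨star p q, hT1 _ hp _ hq, (star_assoc _ _ _).symm⟩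
      · rintro _ ⟨p, hp, rfl⟩
        exact hNi _ (hNi _ hr₀ _ hr) _ hp
    rw [← key] at hr₀
    obtain ⟨p, hp, h⟩ := hr₀
    exact ⟨p, hp, by rw [key] at *; exact h⟩
  refine zorn_superset _ fun c hcs hc => ?_
  obtain rfl | hcnemp := c.eq_empty_or_nonempty
  · exact ⟨TT ev 1, hTS, by simp⟩
  · refine ⟨⋂₀ c, ⟨isClosed_sInter fun t ht => (hcs ht).1, ?_, ?_, fun m hm m' hm' => ?_⟩,
      fun s hs => Set.sInter_subset_of_mem hs⟩
    · rw [Set.sInter_eq_iInter]
      refine @IsCompact.nonempty_iInter_of_directed_nonempty_isCompact_isClosed _ _ _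
        hcnemp.coe_sort ((↑) : c → Set (Ultrafilter (List α))) ?_ ?_ ?_ ?_
      · exact DirectedOn.directed_val (IsChain.directedOn hc.symm)
      exacts [fun i => (hcs i.prop).2.1, fun i => (hcs i.prop).1.isCompact,
        fun i => (hcs i.prop).1]
    · obtain ⟨t, ht⟩ := hcnemp
      exact (Set.sInter_subset_of_mem ht).trans (hcs ht).2.2.1
    · rw [Set.mem_sInter]
      exact fun t ht => (hcs ht).2.2.2 m (Set.mem_sInter.mp hm t ht) m' hm'

/-- Return lemma. -/
theorem exists_return (happ : ∀ u v, ev (u ++ v) = ev u * ev v)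
    (hsurj : ∀ g, ∃ w, ev w = g) {r₀ : Ultrafilter (List α)}
    (hrec : ∀ r ∈ TT ev 1, ∃ r' ∈ TT ev 1, star (star r₀ r) r' = r₀)
    {g : G} {P : Ultrafilter (List α)} (hP : P ∈ TT ev g) :
    ∃ t ∈ TT ev g⁻¹, star (star r₀ P) t = r₀ := by
  obtain ⟨w, hw⟩ := hsurj g⁻¹
  have h1 : star P (pure w) ∈ TT ev 1 := by
    have := star_mem_TT happ hP (pure_mem_TT ev w)
    rwa [hw, mul_inv_cancel] at this
  obtain ⟨r', hr', h⟩ := hrec _ h1
  refine ⟨star (pure w) r', ?_, ?_⟩
  · have := star_mem_TT happ (pure_mem_TT ev w) hr'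
    rwa [hw, mul_one] at this
  · simpa only [star_assoc] using h

/-- The group of values which can be returned from. -/
def HH (happ : ∀ u v, ev (u ++ v) = ev u * ev v) (hnil : ev [] = 1)
    (hsurj : ∀ g, ∃ w, ev w = g) {r₀ : Ultrafilter (List α)}
    (hrec : ∀ r ∈ TT ev 1, ∃ r' ∈ TT ev 1, star (star r₀ r) r' = r₀) (L : Set (List α)) :
    Subgroup G where
  carrier := {g | ∃ r ∈ TT ev g, act (act L r₀) r = act L r₀}
  one_mem' := by
    refine ⟨pure [], ?_, ?_⟩
    · have := pure_mem_TT ev []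
      rwa [hnil] at this
    · ext x
      rw [mem_act]
      exact Iff.rfl
  mul_mem' := by
    rintro g h ⟨r, hr, h1⟩ ⟨s, hs, h2⟩
    exact ⟨star r s, star_mem_TT happ hr hs, by rw [← act_act, h1, h2]⟩
  inv_mem' := by
    rintro g ⟨r, hr, h1⟩
    obtain ⟨t, ht, h2⟩ := exists_return happ hsurj hrec hr
    refine ⟨t, ht, ?_⟩
    calc act (act L r₀) t = act (act (act L r₀) r) t := by rw [h1]
      _ = act L r₀ := by rw [act_act, act_act, ← star_assoc, h2]

/-- The main result of the soft part. -/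
theorem soft_main (happ : ∀ u v, ev (u ++ v) = ev u * ev v) (hnil : ev [] = 1)
    (hsurj : ∀ g, ∃ w, ev w = g) {k : ℕ} (L : Fin k → Set (List α))
    (hWP : ∀ w, ev w = 1 → ∀ i, w ∈ L i) (Λ : Set G)
    (hCLE : ∀ i, ∀ U : Ultrafilter (List α), ∃ v ∈ Λ, ∃ p ∈ TT ev 1, ∃ p' ∈ TT ev v,
      act (act (L i) U) p = act (act (L i) U) p')
    (hgroup : ∀ H : Fin k → Subgroup G, (∀ i g, ∃ v ∈ Λ, g * v * g⁻¹ ∈ H i) →
      ∃ y, y ≠ 1 ∧ ∀ i, y ∈ H i) :
    ∃ w, ev w ≠ 1 ∧ ∀ i, w ∈ L i := by
  obtain ⟨r₀, hr₀, hrec⟩ := exists_recurrent hnil happ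
  obtain ⟨y, hy1, hy⟩ := hgroup (fun i => HH happ hnil hsurj hrec (L i)) (by
    intro i g
    obtain ⟨w, hw⟩ := hsurj g
    obtain ⟨v, hv, p, hp, p', hp', h⟩ := hCLE i (star r₀ (pure w))
    refine ⟨v, hv, ?_⟩
    have hwp : star (pure w) p ∈ TT ev g := by
      have := star_mem_TT happ (pure_mem_TT ev w) hp
      rwa [hw, mul_one] at this
    obtain ⟨t, ht, h2⟩ := exists_return happ hsurj hrec hwp
    refine ⟨star (star (pure w) p') t, ?_, ?_⟩
    · have := star_mem_TT happ (star_mem_TT happ (pure_mem_TT ev w) hp') ht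
      rwa [hw] at this
    · have e1 : act (act (L i) r₀) (star (star (pure w) p') t)
          = act (act (act (L i) (star r₀ (pure w))) p') t := by
        simp only [act_act, star_assoc]
      rw [e1, ← h]
      simp only [act_act]
      rw [star_assoc r₀, h2])
  -- decoupling
  have hr : ∀ i, ∃ r ∈ TT ev y, act (act (L i) r₀) r = act (L i) r₀ := fun i => hy i
  choose r hr hr' using hr
  obtain ⟨wy, hwy⟩ := hsurj y
  obtain ⟨wz, hwz⟩ := hsurj y⁻¹
  have key : ∀ S : Finset (Fin k), ∃ Y ∈ TT ev y, ∀ i ∈ S, ∃ P ∈ TT ev 1,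
      act (act (L i) r₀) Y = act (act (L i) r₀) P := by
    intro S
    induction S using Finset.induction_on with
    | empty => exact ⟨pure wy, hwy ▸ pure_mem_TT ev wy, by simp⟩
    | insert j S hj ih =>
      obtain ⟨Y, hY, hS⟩ := ih
      obtain ⟨t, ht, h2⟩ := exists_return happ hsurj hrec hY
      have hq : (pure wz : Ultrafilter (List α)) ∈ TT ev y⁻¹ := hwz ▸ pure_mem_TT ev wz
      have hs : star (star t (r j)) Y ∈ TT ev y := by
        have := star_mem_TT happ (star_mem_TT happ ht (hr j)) hY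
        rwa [inv_mul_cancel, one_mul] at this
      refine ⟨star (star Y (star (star t (r j)) Y)) (pure wz), ?_, ?_⟩
      · have := star_mem_TT happ (star_mem_TT happ hY hs) hq
        rwa [mul_assoc, mul_inv_cancel, mul_one] at this
      · intro i hi
        rw [Finset.mem_insert] at hi
        rcases hi with rfl | hi
        · refine ⟨star Y (pure wz), ?_, ?_⟩
          · have := star_mem_TT happ hY hq
            rwa [mul_inv_cancel] at this
          · calc act (act (L i) r₀) (star (star Y (star (star t (r i)) Y)) (pure wz))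
                = act (act (act (act (L i) (star (star r₀ Y) t)) (r i)) Y) (pure wz) := by
                  simp only [act_act, star_assoc]
              _ = act (act (act (L i) r₀) Y) (pure wz) := by rw [h2, hr' i]
              _ = _ := by simp only [act_act, star_assoc]
        · obtain ⟨P, hP, h3⟩ := hS i hi
          refine ⟨star (star P (star (star t (r j)) Y)) (pure wz), ?_, ?_⟩
          · have := star_mem_TT happ (star_mem_TT happ hP hs) hq
            rwa [one_mul, mul_inv_cancel] at this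
          · calc act (act (L i) r₀) (star (star Y (star (star t (r j)) Y)) (pure wz))
                = act (act (act (act (L i) r₀) Y) (star (star t (r j)) Y)) (pure wz) := by
                  simp only [act_act, star_assoc]
              _ = act (act (act (act (L i) r₀) P) (star (star t (r j)) Y)) (pure wz) := by
                  rw [h3]
              _ = _ := by simp only [act_act, star_assoc]
  obtain ⟨Y, hY, hP⟩ := key Finset.univ
  have h1 : ∀ i, ∀ᶠ w in (star r₀ Y : Filter (List α)), w ∈ L i := by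
    intro i
    obtain ⟨P, hP, h3⟩ := hP i (Finset.mem_univ i)
    have h4 : ([] : List α) ∈ act (act (L i) r₀) P := by
      rw [act_act, mem_act]
      have : star r₀ P ∈ TT ev 1 := by
        have := star_mem_TT happ hr₀ hP
        rwa [one_mul] at this
      filter_upwards [show {w | ev w = 1} ∈ (star r₀ P : Filter (List α)) from this] with w hw
      rw [List.append_nil]
      exact hWP w hw i
    rw [← h3, act_act, mem_act] at h4
    filter_upwards [h4] with w hw
    rwa [List.append_nil] at hw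
  have h2 : ∀ᶠ w in (star r₀ Y : Filter (List α)), ev w = y := by
    have := star_mem_TT happ hr₀ hY
    rw [one_mul] at this
    exact this
  have h3 : ∀ᶠ w in (star r₀ Y : Filter (List α)), ev w = y ∧ ∀ i, w ∈ L i :=
    h2.and (Filter.eventually_all.2 h1)
  obtain ⟨w, hw, hw'⟩ := h3.exists
  exact ⟨w, hw ▸ hy1, hw'⟩

end

end DZ
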