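import Pool.Agent.helper9.DZ.Step2

/-! # The confusion lemma for deterministic pushdown automata -/

set_option autoImplicit false

namespace DZ

variable {Q Γ : Type} {M : DPDA (Fin 6) Q Γ}

theorem letter_zero : letter 0 = zz (1, 0) := rfl
theorem letter_one : letter 1 = zz (-(1, 0)) := by
  rw [zz_neg]; rfl
theorem letter_two : letter 2 = zz (0, 1) := rfl
theorem letter_three : letter 3 = zz (-(0, 1)) := by
  rw [zz_neg]; rfl

/-- Words over `a, b` which pop the stack `κ` symbol by symbol, each symbol by a power of one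
letter. -/
inductive Path (M : DPDA (Fin 6) Q Γ) (N : ℕ) : Q → List Γ → List (Fin 6) → Q → Prop
  | nil (s : Q) : Path M N s [] [] s
  | cons {s t s' : Q} {Z : Γ} {x : Fin 6} {n : ℕ} {κ : List Γ} {u : List (Fin 6)} :
      (x = 0 ∨ x = 2) → n ≤ N → M.Run (s, [Z]) (List.replicate n x) (t, []) →
        Path M N t κ u s' → Path M N s (Z :: κ) (List.replicate n x ++ u) s'

theorem Path.run {N : ℕ} {s s' : Q} {κ : List Γ} {u : List (Fin 6)} (h : Path M N s κ u s') :
    M.Run (s, κ) u (s', []) := by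
  induction h with
  | nil s => exact DPDA.Run.refl _
  | @cons s t s' Z x n κ u _ _ h1 _ ih => exact (h1.local' κ).trans ih

theorem Path.append {N : ℕ} {s t s' : Q} {κ δ : List Γ} {u v : List (Fin 6)}
    (h : Path M N s κ u t) (h' : Path M N t δ v s') : Path M N s (κ ++ δ) (u ++ v) s' := by
  induction h with
  | nil s => exact h'
  | cons hx hn h1 _ ih =>
    rw [List.append_assoc]
    exact Path.cons hx hn h1 (ih h')

theorem Path.mem {N : ℕ} {s s' : Q} {κ : List Γ} {u : List (Fin 6)} (h : Path M N s κ u s') :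
    ∀ x ∈ u, x = 0 ∨ x = 2 := by
  induction h with
  | nil s => simp
  | cons hx hn h1 _ ih =>
    intro y hy
    rw [List.mem_append] at hy
    rcases hy with hy | hy
    · rw [List.eq_of_mem_replicate hy]
      exact hx
    · exact ih y hy

theorem Path.snoc {N : ℕ} {s s' : Q} {κ : List Γ} {Z : Γ} {u : List (Fin 6)}
    (h : Path M N s (κ ++ [Z]) u s') :
    ∃ t u₀ v, Path M N s κ u₀ t ∧ u = u₀ ++ v ∧ v.length ≤ N := by
  induction κ generalizing s u with
  | nil =>
    cases h with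
    | @cons _ t _ _ x n _ u hx hn h1 h2 =>
      cases h2 with
      | nil => exact ⟨s, [], List.replicate n x ++ [], Path.nil s, by simp, by simpa using hn⟩
  | cons Y κ ih =>
    cases h with
    | @cons _ t _ _ x n _ u hx hn h1 h2 =>
      obtain ⟨t', u₀, v, h3, h4, h5⟩ := ih h2
      exact ⟨t', List.replicate n x ++ u₀, v, Path.cons hx hn h1 h3, by simp [h4], h5⟩

/-- Cutting a path at a prescribed number of letters `a`. -/
theorem Path.cut {N : ℕ} (hN : 1 ≤ N) (a : Fin 6) {s s' : Q} {κ : List Γ} {u : List (Fin 6)}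
    (h : Path M N s κ u s') (τ : ℕ) (hτ : τ ≤ u.count a) :
    ∃ κ₁ κ₂ u₁ t, κ = κ₁ ++ κ₂ ∧ Path M N s κ₁ u₁ t ∧ τ ≤ u₁.count a ∧ u₁.count a < τ + N := by
  induction h generalizing τ with
  | nil s => exact ⟨[], [], [], s, rfl, Path.nil s, hτ, by simp; omega⟩
  | @cons s t s' Z x n κ u hx hn h1 h2 ih =>
    have hc : (List.replicate n x).count a ≤ n := by
      have := List.count_le_length (a := a) (l := List.replicate n x)
      simpa using this
    rcases Nat.eq_zero_or_pos τ with rfl | hτ0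
    · exact ⟨[], Z :: κ, [], s, rfl, Path.nil s, by simp, by simp; omega⟩
    by_cases hle : τ ≤ (List.replicate n x).count a
    · refine ⟨[Z], κ, List.replicate n x ++ [], t, rfl, Path.cons hx hn h1 (Path.nil t), ?_, ?_⟩
      · simpa using hle
      · rw [List.append_nil]
        omega
    · rw [List.count_append] at hτ
      obtain ⟨κ₁, κ₂, u₁, t', rfl, h3, h4, h5⟩ :=
        ih (τ - (List.replicate n x).count a) (by omega)
      refine ⟨Z :: κ₁, κ₂, List.replicate n x ++ u₁, t', rfl, Path.cons hx hn h1 h3, ?_, ?_⟩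
      · rw [List.count_append]
        omega
      · rw [List.count_append]
        omega

/-- Along the paths, every symbol of `κ` is popped by some power of `a` and of `b`. -/
def Ext (M : DPDA (Fin 6) Q Γ) (N : ℕ) (q : Q) (κ : List Γ) : Prop :=
  ∀ κ₁ Z κ₂, κ = κ₁ ++ Z :: κ₂ → ∀ u t, Path M N q κ₁ u t → ∀ x, (x = 0 ∨ x = 2) → ¬ M.NP t Z x

/-- The bound for the popping powers. -/
def PopBound (M : DPDA (Fin 6) Q Γ) (N : ℕ) : Prop :=
  ∀ s Z x, ¬ M.NP s Z x → ∃ n ≤ N, ∃ s', M.Run (s, [Z]) (List.replicate n x) (s', [])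

theorem exists_popBound [Finite Q] [Finite Γ] (M : DPDA (Fin 6) Q Γ) :
    ∃ N, 1 ≤ N ∧ PopBound M N := by
  classical
  have h : ∀ p : Q × Γ × Fin 6, ∃ n, ¬ M.NP p.1 p.2.1 p.2.2 →
      ∃ s', M.Run (p.1, [p.2.1]) (List.replicate n p.2.2) (s', []) := by
    intro p
    by_cases hp : M.NP p.1 p.2.1 p.2.2
    · exact ⟨0, fun h => absurd hp h⟩
    · simp only [DPDA.NP, not_forall, not_not] at hp
      obtain ⟨n, s', h⟩ := hp
      exact ⟨n, fun _ => ⟨s', h⟩⟩
  choose n hn using h
  obtain ⟨N, hN⟩ := (Set.finite_range n).bddAbove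
  refine ⟨N + 1, by omega, fun s Z x h => ?_⟩
  obtain ⟨s', h'⟩ := hn (s, Z, x) h
  exact ⟨n (s, Z, x), (hN (Set.mem_range_self _)).trans (by omega), s', h'⟩

theorem Ext.run {N : ℕ} (hPB : PopBound M N) {q : Q} {κ : List Γ} (hE : Ext M N q κ)
    (κ₁ κ₂ : List Γ) (hκ : κ = κ₁ ++ κ₂) (u : List (Fin 6)) (t : Q) (hp : Path M N q κ₁ u t)
    (x : Fin 6) (hx : x = 0 ∨ x = 2) : ∃ m s', Path M N t κ₂ (List.replicate m x) s' := by
  induction κ₂ generalizing κ₁ u t with
  | nil => exact ⟨0, t, Path.nil t⟩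
  | cons Z κ₂ ih =>
    obtain ⟨n, hn, t', h1⟩ := hPB t Z x (hE κ₁ Z κ₂ hκ u t hp x hx)
    have hp' : Path M N q (κ₁ ++ [Z]) (u ++ (List.replicate n x ++ [])) t' :=
      hp.append (Path.cons hx hn h1 (Path.nil t'))
    obtain ⟨m, s', h2⟩ := ih (κ₁ ++ [Z]) (by simp [hκ]) _ t' hp'
    refine ⟨n + m, s', ?_⟩
    rw [replicate_add']
    exact Path.cons hx hn h1 h2

/-- Many values on one level. -/
theorem exists_exact [Finite Q] {N : ℕ} (hN : 1 ≤ N) (hPB : PopBound M N) {q : Q} {κ : List Γ}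
    (hE : Ext M N q κ) {a b : Fin 6} (hab : a ≠ b) (hb : b = 0 ∨ b = 2) {u : List (Fin 6)}
    {s : Q} (hp : Path M N q κ u s) (hu : Nat.card Q * N ≤ u.count a) :
    ∃ v v' t, Path M N q κ v t ∧ Path M N q κ v' t ∧ v.count a ≠ v'.count a := by
  have h : ∀ i : Fin (Nat.card Q + 1), ∃ t v, Path M N q κ v t ∧ i.1 * N ≤ v.count a ∧
      v.count a < i.1 * N + N := by
    intro i
    obtain ⟨κ₁, κ₂, u₁, t, hκ, h1, h2, h3⟩ := hp.cut hN a (i.1 * N)
      (le_trans (Nat.mul_le_mul_right _ (by omega)) hu)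
    obtain ⟨m, s', h4⟩ := hE.run hPB κ₁ κ₂ hκ u₁ t h1 b hb
    have hc : (u₁ ++ List.replicate m b).count a = u₁.count a := by
      rw [List.count_append, List.count_replicate]
      simp [hab.symm]
    refine ⟨s', u₁ ++ List.replicate m b, hκ ▸ h1.append h4, ?_, ?_⟩
    · rwa [hc]
    · rwa [hc]
  choose T v hT h1 h2 using h
  have : Fintype Q := Fintype.ofFinite Q
  obtain ⟨i, i', hne, heq⟩ := Fintype.exists_ne_map_eq_of_card_lt T (by
    rw [Fintype.card_fin, ← Nat.card_eq_fintype_card]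
    omega)
  refine ⟨v i, v i', T i, hT i, heq ▸ hT i', ?_⟩
  intro hc
  apply hne
  apply Fin.ext
  have a1 := h1 i
  have a2 := h2 i
  have a3 := h1 i'
  have a4 := h2 i'
  rw [hc] at a1 a2
  rcases lt_trichotomy i.1 i'.1 with hlt | h | hlt
  · exfalso
    have : (i.1 + 1) * N ≤ i'.1 * N := Nat.mul_le_mul_right _ hlt
    rw [Nat.add_mul, Nat.one_mul] at this
    omega
  · exact h
  · exfalso
    have : (i'.1 + 1) * N ≤ i.1 * N := Nat.mul_le_mul_right _ hlt
    rw [Nat.add_mul, Nat.one_mul] at this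
    omega

/-- The value of a word over `a, b`. -/
theorem ev_of_mem (u : List (Fin 6)) (hu : ∀ x ∈ u, x = 0 ∨ x = 2) :
    ev u = zz ((u.count 0 : ℤ), (u.count 2 : ℤ)) := by
  induction u with
  | nil => simp [ev_nil, ← zz_zero]; rfl
  | cons x u ih =>
    rw [ev_cons, ih (fun y hy => hu y (List.mem_cons_of_mem _ hy))]
    rcases hu x List.mem_cons_self with rfl | rfl
    · rw [letter_zero, ← zz_add]
      congr 1
      simp [add_comm]
    · rw [letter_two, ← zz_add]
      congr 1
      simp [add_comm]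

theorem length_of_mem (u : List (Fin 6)) (hu : ∀ x ∈ u, x = 0 ∨ x = 2) :
    u.length = u.count 0 + u.count 2 := by
  induction u with
  | nil => simp
  | cons x u ih =>
    rw [List.length_cons, ih (fun y hy => hu y (List.mem_cons_of_mem _ hy))]
    rcases hu x List.mem_cons_self with rfl | rfl
    · simp; omega
    · simp; omega

/-- The way back. -/
def ret (u : List (Fin 6)) : List (Fin 6) :=
  List.replicate (u.count 0) 1 ++ (List.replicate (u.count 2) 3 ++ [0, 1])

theorem ev_ret (u : List (Fin 6)) : ev (ret u) = zz (-(u.count 0 : ℤ), -(u.count 2 : ℤ)) := by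
  simp only [ret, ev_append, ev_replicate letter_one, ev_replicate letter_three, ev_cons, ev_nil,
    letter_zero, letter_one, mul_one]
  simp only [← zz_add]
  congr 1
  simp

theorem ret_length (u : List (Fin 6)) (hu : ∀ x ∈ u, x = 0 ∨ x = 2) :
    (ret u).length = u.length + 2 := by
  rw [length_of_mem u hu]
  simp [ret]
  omega

/-- Confusions may be prefixed. -/
theorem ConfAt.pre {C C' : Q × List Γ} {u : List (Fin 6)} {Λ : Set (ℤ × ℤ)} {R B : ℕ}
    (hu : ∀ x ∈ u, x = 0 ∨ x = 2) (h : M.Run C u C') (hC : ConfAt M C' Λ (R + u.length + 2) B) :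
    ConfAt M C Λ R (u.length + B + (u.length + 2)) := by
  obtain ⟨p, p', hp, hp', hB, hB', hv, ⟨v, hvΛ, hv'⟩, hacc⟩ := hC
  have hl := ret_length u hu
  refine ⟨u ++ (p ++ ret u), u ++ (p' ++ ret u), by simp [hp], by simp [hp'], ?_, ?_, ?_,
    ⟨v, hvΛ, ?_⟩, fun x hx => ?_⟩
  · simp only [List.length_append]
    omega
  · simp only [List.length_append]
    omega
  · rw [ev_append, ev_append, hv, ev_ret, ev_of_mem u hu, one_mul, ← zz_add, ← zz_zero]
    congr 1
    simp
  · rw [ev_append, ev_append, hv', ev_ret, ev_of_mem u hu, ← zz_add, ← zz_add]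
    congr 1
    ext <;> simp <;> ring
  · rw [List.append_assoc, List.append_assoc, List.append_assoc, List.append_assoc,
      DPDA.acc_run h (by simp [hp]), DPDA.acc_run h (by simp [hp'])]
    refine hacc _ ?_
    rw [List.length_append]
    omega

theorem ConfAt.mono {C : Q × List Γ} {Λ Λ' : Set (ℤ × ℤ)} {R B B' : ℕ} (hΛ : Λ ⊆ Λ')
    (hB : B ≤ B') (h : ConfAt M C Λ R B) : ConfAt M C Λ' R B' := by
  obtain ⟨p, p', h1, h2, h3, h4, h5, ⟨v, hv, h6⟩, h7⟩ := h
  exact ⟨p, p', h1, h2, h3.trans hB, h4.trans hB, h5, ⟨v, hΛ hv, h6⟩, h7⟩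

/-- **The confusion lemma.** -/
theorem confusion [Finite Q] [Finite Γ] (M : DPDA (Fin 6) Q Γ) :
    ∃ Λ : Set (ℤ × ℤ), Λ.Finite ∧ 0 ∉ Λ ∧ ∀ R, ∃ B, ∀ C, M.Live C → ConfAt M C Λ R B := by
  have hind : ∀ m n : ℤ, m • ((1, 0) : ℤ × ℤ) + n • ((0, 1) : ℤ × ℤ) = 0 → m = 0 ∧ n = 0 := by
    intro m n h
    simpa using h
  have hind' : ∀ m n : ℤ, m • ((0, 1) : ℤ × ℤ) + n • ((1, 0) : ℤ × ℤ) = 0 → m = 0 ∧ n = 0 := by
    intro m n h
    rw [add_comm] at h
    exact (hind n m h).symm
  have sa := fun p : Q × Γ => step2 M letter_zero letter_one letter_two letter_three hind p.1 p.2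
  have sb := fun p : Q × Γ => step2 M letter_two letter_three letter_zero letter_one hind' p.1 p.2
  choose Λa hΛa1 hΛa2 ha using sa
  choose Λb hΛb1 hΛb2 hb using sb
  obtain ⟨N, hN, hPB⟩ := exists_popBound M
  set K := 2 * (Nat.card Q * N) with hK
  let Λ₀ : Set (ℤ × ℤ) := {v | v ≠ 0 ∧ |v.1| ≤ K + N ∧ |v.2| ≤ K + N}
  have hΛ₀ : Λ₀.Finite := by
    refine Set.Finite.subset ((Set.finite_Icc (-(K + N : ℤ)) (K + N)).prod
      (Set.finite_Icc (-(K + N : ℤ)) (K + N))) ?_
    rintro v ⟨-, h1, h2⟩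
    exact ⟨abs_le.1 h1, abs_le.1 h2⟩
  refine ⟨(⋃ p, Λa p) ∪ (⋃ p, Λb p) ∪ Λ₀, ((Set.finite_iUnion hΛa1).union
    (Set.finite_iUnion hΛb1)).union hΛ₀, ?_, fun R => ?_⟩
  · rintro ((h | h) | h)
    · obtain ⟨p, hp⟩ := Set.mem_iUnion.1 h
      exact hΛa2 p hp
    · obtain ⟨p, hp⟩ := Set.mem_iUnion.1 h
      exact hΛb2 p hp
    · exact h.1 rfl
  choose Ba hBa using fun p => ha p (R + K + 2)
  choose Bb hBb using fun p => hb p (R + K + 2)
  obtain ⟨Ba', hBa'⟩ := (Set.finite_range Ba).bddAbove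
  obtain ⟨Bb', hBb'⟩ := (Set.finite_range Bb).bddAbove
  refine ⟨K + (Ba' + Bb') + (K + 2) + 2 * (K + N + 2), ?_⟩
  rintro ⟨q, γ⟩ hL
  have main : ∀ (δ κ : List Γ), γ = κ ++ δ → Ext M N q κ →
      (∀ u t, Path M N q κ u t → u.length ≤ K) →
      ConfAt M (q, γ) ((⋃ p, Λa p) ∪ (⋃ p, Λb p) ∪ Λ₀) R
        (K + (Ba' + Bb') + (K + 2) + 2 * (K + N + 2)) := by
    intro δ
    induction δ with
    | nil =>
      intro κ hκ hE _
      exfalso
      obtain ⟨m, s', h⟩ := hE.run hPB [] κ rfl [] q (Path.nil q) 0 (Or.inl rfl)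
      rw [List.append_nil] at hκ
      subst hκ
      exact hL.stack_ne_nil 0 h.run
    | cons Z δ ih =>
      intro κ hκ hE hlen
      by_cases hnp : ∃ u t x, Path M N q κ u t ∧ (x = 0 ∨ x = 2) ∧ M.NP t Z x
      · obtain ⟨u, t, x, hp, hx, hNP⟩ := hnp
        have hrun : M.Run (q, γ) u (t, Z :: δ) := by
          rw [hκ]
          exact hp.run.local' (Z :: δ)
        have hL' : M.Live (t, Z :: δ) := hL.run 0 hrun
        have hul := hlen u t hp
        rcases hx with rfl | rfl
        · obtain ⟨p, p', h1, h2, h3, h4, h5, h6, h7⟩ := hBa (t, Z) δ hL' hNP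
          have hc : ConfAt M (t, Z :: δ) (Λa (t, Z)) (R + u.length + 2) (Ba (t, Z)) :=
            ⟨p, p', h1, h2, h3, h4, h5, h6, fun x hx => h7 x (by omega)⟩
          refine (ConfAt.pre hp.mem hrun hc).mono ?_ ?_
          · exact fun v hv => Or.inl (Or.inl (Set.mem_iUnion.2 ⟨_, hv⟩))
          · have := hBa' (Set.mem_range_self (t, Z))
            omega
        · obtain ⟨p, p', h1, h2, h3, h4, h5, h6, h7⟩ := hBb (t, Z) δ hL' hNP
          have hc : ConfAt M (t, Z :: δ) (Λb (t, Z)) (R + u.length + 2) (Bb (t, Z)) :=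
            ⟨p, p', h1, h2, h3, h4, h5, h6, fun x hx => h7 x (by omega)⟩
          refine (ConfAt.pre hp.mem hrun hc).mono ?_ ?_
          · exact fun v hv => Or.inl (Or.inr (Set.mem_iUnion.2 ⟨_, hv⟩))
          · have := hBb' (Set.mem_range_self (t, Z))
            omega
      · push Not at hnp
        have hE' : Ext M N q (κ ++ [Z]) := by
          intro κ₁ Y κ₂ h0 u t hp x hx
          rcases List.eq_nil_or_concat κ₂ with rfl | ⟨κ₃, W, rfl⟩
          · obtain ⟨rfl, h0'⟩ := List.append_inj' h0 rfl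
            obtain rfl : Z = Y := by simpa using h0'
            exact hnp u t x hp hx
          · have h0' : κ ++ [Z] = (κ₁ ++ Y :: κ₃) ++ [W] := by simpa using h0
            obtain ⟨h0'', -⟩ := List.append_inj' h0' rfl
            exact hE κ₁ Y κ₃ h0'' u t hp x hx
        have hlen' : ∀ u t, Path M N q (κ ++ [Z]) u t → u.length ≤ K + N := by
          intro u t hp
          obtain ⟨t', u₀, v, h1, rfl, h2⟩ := hp.snoc
          have := hlen u₀ t' h1
          rw [List.length_append]
          omega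
        by_cases hlong : ∃ u t, Path M N q (κ ++ [Z]) u t ∧ K < u.length
        · obtain ⟨u, t, hp, hlong⟩ := hlong
          have hcount := length_of_mem u hp.mem
          have hex : ∃ v v' t, Path M N q (κ ++ [Z]) v t ∧ Path M N q (κ ++ [Z]) v' t ∧
              (v.count 0 ≠ v'.count 0 ∨ v.count 2 ≠ v'.count 2) := by
            rcases Nat.lt_or_ge (u.count 0) (Nat.card Q * N) with h | h
            · obtain ⟨v, v', t, h1, h2, h3⟩ := exists_exact hN hPB hE' (a := 2) (b := 0)
                (by decide) (Or.inl rfl) hp (by omega)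
              exact ⟨v, v', t, h1, h2, Or.inr h3⟩
            · obtain ⟨v, v', t, h1, h2, h3⟩ := exists_exact hN hPB hE' (a := 0) (b := 2)
                (by decide) (Or.inr rfl) hp h
              exact ⟨v, v', t, h1, h2, Or.inl h3⟩
          obtain ⟨v, v', t, h1, h2, h3⟩ := hex
          have hl1 := hlen' v t h1
          have hl2 := hlen' v' t h2
          have hc1 := length_of_mem v h1.mem
          have hc2 := length_of_mem v' h2.mem
          have hr1 := ret_length v h1.mem
          have e1 := ev_of_mem v h1.mem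
          have e2 := ev_of_mem v' h2.mem
          have run1 : M.Run (q, γ) v (t, δ) := by
            rw [hκ, show κ ++ Z :: δ = (κ ++ [Z]) ++ δ by simp]
            exact h1.run.local' δ
          have run2 : M.Run (q, γ) v' (t, δ) := by
            rw [hκ, show κ ++ Z :: δ = (κ ++ [Z]) ++ δ by simp]
            exact h2.run.local' δ
          refine conf_of run1 run2 (r := ret v)
            (v := ((v'.count 0 : ℤ) - v.count 0, (v'.count 2 : ℤ) - v.count 2))
            (by simp [ret]) ?_ ?_ (Or.inr ⟨?_, ?_, ?_⟩) ?_ ?_ (fun _ _ => Iff.rfl)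
          · rw [e1, ev_ret, ← zz_add, ← zz_zero]
            congr 1
            simp
          · rw [e2, ev_ret, ← zz_add]
            congr 1
          · intro h0
            rw [Prod.mk_eq_zero] at h0
            omega
          · rw [abs_le]
            constructor <;> simp only <;> omega
          · rw [abs_le]
            constructor <;> simp only <;> omega
          · rw [List.length_append]
            omega
          · rw [List.length_append]
            omega
        · push Not at hlong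
          exact ih (κ ++ [Z]) (by simp [hκ]) hE' hlong
  refine main γ [] rfl ?_ ?_
  · intro κ₁ Z κ₂ h0
    simp at h0
  · intro u t hp
    cases hp
    simp

end DZ
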