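import Pool.Agent.helper9.DZ.Loop

/-! # Confusions above a symbol which is never popped by one letter -/

set_option autoImplicit false

namespace DZ

variable {Q Γ : Type} {M : DPDA (Fin 6) Q Γ}

theorem ev_cons (a : Fin 6) (w : List (Fin 6)) : ev (a :: w) = letter a * ev w := by
  simp [ev]

theorem zz_nsmul (n : ℕ) (v : ℤ × ℤ) : zz ((n : ℤ) • v) = zz v ^ n := by
  induction n with
  | zero => simp [zz_zero]
  | succ n ih =>
    rw [pow_succ, ← ih, ← zz_add]
    congr 1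
    push_cast
    rw [add_smul, one_smul]

theorem ev_replicate {x : Fin 6} {e : ℤ × ℤ} (hx : letter x = zz e) (n : ℕ) :
    ev (List.replicate n x) = zz ((n : ℤ) • e) := by
  rw [zz_nsmul, ← hx]
  simp [ev]

/-- How confusions are produced. -/
theorem conf_of {C C₁ C₂ : Q × List Γ} {u u' r : List (Fin 6)} {Λ : Set (ℤ × ℤ)} {R B : ℕ}
    {v : ℤ × ℤ} (h : M.Run C u C₁) (h' : M.Run C u' C₂) (hr : r ≠ [])
    (hval : ev u * ev r = 1) (hval' : ev u' * ev r = zz v) (hv : v ∈ Λ)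
    (hB : (u ++ r).length ≤ B) (hB' : (u' ++ r).length ≤ B)
    (hacc : ∀ z : List (Fin 6), z.length ≤ r.length + R → (M.Acc C₁ z ↔ M.Acc C₂ z)) :
    ConfAt M C Λ R B := by
  refine ⟨u ++ r, u' ++ r, by simp [hr], by simp [hr], hB, hB', by rw [ev_append, hval],
    ⟨v, hv, by rw [ev_append, hval']⟩, fun x hx => ?_⟩
  rw [List.append_assoc, List.append_assoc, DPDA.acc_run h (by simp [hr]),
    DPDA.acc_run h' (by simp [hr])]
  exact hacc _ (by simp; omega)

/-- Pigeonhole for the states in which the stacks `Y :: η ^ i` are popped. -/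
theorem pop_pigeonhole [Finite Q] {q t : Q} {Y : Γ} {η : List Γ} {z : Fin 6} {n : ℕ}
    (h : M.Run (q, Y :: blk η (Nat.card Q)) (List.replicate n z) (t, [])) :
    ∃ i i' m m' t', i ≠ i' ∧ i ≤ Nat.card Q ∧ i' ≤ Nat.card Q ∧
      M.Run (q, Y :: blk η i) (List.replicate m z) (t', []) ∧
      M.Run (q, Y :: blk η i') (List.replicate m' z) (t', []) := by
  have hpre : ∀ i : Fin (Nat.card Q + 1), ∃ t' m,
      M.Run (q, Y :: blk η i) (List.replicate m z) (t', []) := by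
    intro i
    have e : Y :: blk η (Nat.card Q) = (Y :: blk η i) ++ blk η (Nat.card Q - i) := by
      rw [List.cons_append, ← blk_add]
      congr 2
      omega
    rw [e] at h
    obtain ⟨m, -, t', h1, -⟩ := h.pop_initial
    exact ⟨t', m, h1⟩
  choose T m hT using hpre
  have : Fintype Q := Fintype.ofFinite Q
  obtain ⟨i, i', hne, heq⟩ := Fintype.exists_ne_map_eq_of_card_lt T (by
    rw [Fintype.card_fin, ← Nat.card_eq_fintype_card]
    omega)
  refine ⟨i, i', m i, m i', T i, ?_, by omega, by omega, hT i, heq ▸ hT i'⟩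
  intro h
  exact hne (Fin.ext h)

/-- `M.Live` gives readability of powers. -/
theorem nl_of_live {s : Q} {Z : Γ} {γ : List Γ} {x : Fin 6} (hNP : M.NP s Z x)
    (h : M.Live (s, Z :: γ)) : NL M s Z x :=
  nl_of_read hNP (fun n => h (List.replicate n x))

theorem step2 [Finite Q] [Finite Γ] (M : DPDA (Fin 6) Q Γ) {x x' y y' : Fin 6}
    {e f : ℤ × ℤ} (hx : letter x = zz e) (hx' : letter x' = zz (-e)) (hy : letter y = zz f)
    (hy' : letter y' = zz (-f)) (hind : ∀ m n : ℤ, m • e + n • f = 0 → m = 0 ∧ n = 0)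
    (s : Q) (Z : Γ) :
    ∃ Λ : Set (ℤ × ℤ), Λ.Finite ∧ 0 ∉ Λ ∧ ∀ R, ∃ B, ∀ γ, M.Live (s, Z :: γ) → M.NP s Z x →
      ConfAt M (s, Z :: γ) Λ R B := by
  by_cases hex : ∃ γ₀, M.Live (s, Z :: γ₀) ∧ M.NP s Z x
  swap
  · exact ⟨∅, Set.finite_empty, by simp, fun R => ⟨0, fun γ h1 h2 => absurd ⟨γ, h1, h2⟩ hex⟩⟩
  obtain ⟨γ₀, hL₀, hNP⟩ := hex
  obtain ⟨n₁, ρ, q₁, Y, ν, η, hρ, hr1, hr2⟩ := exists_loop (nl_of_live hNP hL₀)
  -- the first phase
  have ph1 : ∀ j γ, M.Run (s, Z :: γ) (List.replicate (n₁ + j * ρ) x)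
      (q₁, Y :: blk η j ++ (ν ++ γ)) := by
    intro j γ
    rw [replicate_add']
    have h1 := hr1.local' γ
    have h2 := (loop_pow hr2 j).local' (ν ++ γ)
    have := h1.trans (C₁ := (q₁, Y :: (ν ++ γ))) (by simpa using h2)
    simpa using this
  set J := Nat.card Q with hJ
  rcases stair M y (Y :: blk η J) q₁ with ⟨n, t, h⟩ | ⟨μ₂, Z₂, ν₂, m₂, s₂, hdec, h2, hNP2⟩
  · -- case A
    obtain ⟨i, i', m, m', t', hne, -, -, hi, hi'⟩ := pop_pigeonhole h
    have hv : ((i' : ℤ) - i) * ρ ≠ 0 := by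
      refine mul_ne_zero ?_ (by omega)
      intro h
      exact hne (by omega)
    refine ⟨{(((i' : ℤ) - i) * ρ) • e + ((m' : ℤ) - m) • f}, Set.finite_singleton _, ?_, ?_⟩
    · intro h0
      exact hv (hind _ _ (Set.mem_singleton_iff.1 h0).symm).1
    intro R
    set u := List.replicate (n₁ + i * ρ) x ++ List.replicate m y with hu
    set u' := List.replicate (n₁ + i' * ρ) x ++ List.replicate m' y with hu'
    set r := List.replicate (n₁ + i * ρ) x' ++ (List.replicate m y' ++ [x, x']) with hr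
    refine ⟨(u ++ r).length + (u' ++ r).length, fun γ hL _ => ?_⟩
    have run1 : M.Run (s, Z :: γ) u (t', ν ++ γ) := (ph1 i γ).trans (hi.local' (ν ++ γ))
    have run2 : M.Run (s, Z :: γ) u' (t', ν ++ γ) := (ph1 i' γ).trans (hi'.local' (ν ++ γ))
    refine conf_of run1 run2 (r := r) (by simp [hr]) ?_ ?_ (Set.mem_singleton _)
      (Nat.le_add_right _ _) (Nat.le_add_left _ _) (fun _ _ => Iff.rfl)
    · simp only [hu, hr, ev_append, ev_replicate hx, ev_replicate hx', ev_replicate hy,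
        ev_replicate hy', ev_cons, ev_nil, hx, hx', mul_one]
      simp only [← zz_add]
      rw [← zz_zero]
      congr 1
      module
    · simp only [hu', hr, ev_append, ev_replicate hx, ev_replicate hx', ev_replicate hy,
        ev_replicate hy', ev_cons, ev_nil, hx, hx', mul_one]
      simp only [← zz_add]
      congr 1
      push_cast
      module
  -- case B
  have ph2a : ∀ j γ, M.Run (s, Z :: γ) (List.replicate (n₁ + (J + j) * ρ) x ++
      List.replicate m₂ y) (s₂, Z₂ :: (ν₂ ++ (blk η j ++ (ν ++ γ)))) := by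
    intro j γ
    have h1 := ph1 (J + j) γ
    rw [blk_add, ← List.cons_append, hdec] at h1
    have h3 := h2.local' (Z₂ :: ν₂ ++ (blk η j ++ (ν ++ γ)))
    have := h1.trans (by simpa using h3)
    simpa using this
  have hL2 : M.Live (s₂, Z₂ :: (ν₂ ++ (blk η 0 ++ (ν ++ γ₀)))) := hL₀.run x (ph2a 0 γ₀)
  obtain ⟨n₂, ρ₂, q₂, Y₂, ν₂', η₂, hρ₂, hr3, hr4⟩ := exists_loop (nl_of_live hNP2 hL2)
  have ph2 : ∀ j i γ, M.Run (s, Z :: γ) (List.replicate (n₁ + (J + j) * ρ) x ++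
      List.replicate (m₂ + n₂ + i * ρ₂) y)
      (q₂, Y₂ :: blk η₂ i ++ (ν₂' ++ (ν₂ ++ (blk η j ++ (ν ++ γ))))) := by
    intro j i γ
    have h1 := ph2a j γ
    have h3 := hr3.local' (ν₂ ++ (blk η j ++ (ν ++ γ)))
    have h4 := (loop_pow hr4 i).local' (ν₂' ++ (ν₂ ++ (blk η j ++ (ν ++ γ))))
    have h5 := h1.trans ((show M.Run (s₂, Z₂ :: (ν₂ ++ (blk η j ++ (ν ++ γ)))) _ _ from h3).trans
      (C₁ := (q₂, Y₂ :: (ν₂' ++ (ν₂ ++ (blk η j ++ (ν ++ γ)))))) (by simpa using h4))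
    rw [replicate_add' (m₂ + n₂), replicate_add' m₂]
    simpa [Nat.add_assoc] using h5
  rcases stair M x' (Y₂ :: blk η₂ J) q₂ with ⟨n, t, h⟩ | ⟨μ₃, Z₃, ν₃, m₃, s₃, hdec3, h3, hNP3⟩
  · -- case B1
    obtain ⟨i, i', m, m', t', hne, -, -, hi, hi'⟩ := pop_pigeonhole h
    have hv : ((i' : ℤ) - i) * ρ₂ ≠ 0 := by
      refine mul_ne_zero ?_ (by omega)
      intro h
      exact hne (by omega)
    refine ⟨{((m : ℤ) - m') • e + (((i' : ℤ) - i) * ρ₂) • f}, Set.finite_singleton _, ?_, ?_⟩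
    · intro h0
      exact hv (hind _ _ (Set.mem_singleton_iff.1 h0).symm).2
    intro R
    set u := (List.replicate (n₁ + (J + 0) * ρ) x ++ List.replicate (m₂ + n₂ + i * ρ₂) y) ++
      List.replicate m x' with hu
    set u' := (List.replicate (n₁ + (J + 0) * ρ) x ++ List.replicate (m₂ + n₂ + i' * ρ₂) y) ++
      List.replicate m' x' with hu'
    set r := List.replicate (n₁ + (J + 0) * ρ) x' ++ (List.replicate (m₂ + n₂ + i * ρ₂) y' ++
      (List.replicate m x ++ [x, x'])) with hr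
    refine ⟨(u ++ r).length + (u' ++ r).length, fun γ hL _ => ?_⟩
    have run1 := (ph2 0 i γ).trans (hi.local' (ν₂' ++ (ν₂ ++ (blk η 0 ++ (ν ++ γ)))))
    have run2 := (ph2 0 i' γ).trans (hi'.local' (ν₂' ++ (ν₂ ++ (blk η 0 ++ (ν ++ γ)))))
    refine conf_of run1 run2 (r := r) (by simp [hr]) ?_ ?_ (Set.mem_singleton _)
      (Nat.le_add_right _ _) (Nat.le_add_left _ _) (fun _ _ => Iff.rfl)
    · simp only [hr, ev_append, ev_replicate hx, ev_replicate hx', ev_replicate hy,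
        ev_replicate hy', ev_cons, ev_nil, hx, hx', mul_one]
      simp only [← zz_add]
      rw [← zz_zero]
      congr 1
      module
    · simp only [hr, ev_append, ev_replicate hx, ev_replicate hx', ev_replicate hy,
        ev_replicate hy', ev_cons, ev_nil, hx, hx', mul_one]
      simp only [← zz_add]
      congr 1
      push_cast
      module
  -- case B2
  have ph3a : ∀ j γ, M.Run (s, Z :: γ) ((List.replicate (n₁ + (J + j) * ρ) x ++
      List.replicate (m₂ + n₂ + J * ρ₂) y) ++ List.replicate m₃ x')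
      (s₃, Z₃ :: (ν₃ ++ (ν₂' ++ (ν₂ ++ (blk η j ++ (ν ++ γ)))))) := by
    intro j γ
    have h1 := ph2 j J γ
    rw [hdec3] at h1
    have h4 := h3.local' (Z₃ :: ν₃ ++ (ν₂' ++ (ν₂ ++ (blk η j ++ (ν ++ γ)))))
    have := h1.trans (by simpa using h4)
    simpa using this
  have hL3 : M.Live (s₃, Z₃ :: (ν₃ ++ (ν₂' ++ (ν₂ ++ (blk η 0 ++ (ν ++ γ₀)))))) :=
    hL₀.run x (ph3a 0 γ₀)
  obtain ⟨n₃, ρ₃, q₃, Y₃, ν₃', η₃, hρ₃, hr5, hr6⟩ := exists_loop (nl_of_live hNP3 hL3)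
  have ph3 : ∀ j l γ, M.Run (s, Z :: γ) ((List.replicate (n₁ + (J + j) * ρ) x ++
      List.replicate (m₂ + n₂ + J * ρ₂) y) ++ List.replicate (m₃ + n₃ + l * ρ₃) x')
      (q₃, (Y₃ :: blk η₃ l ++ (ν₃' ++ (ν₃ ++ (ν₂' ++ ν₂)))) ++ (blk η j ++ (ν ++ γ))) := by
    intro j l γ
    have h1 := ph3a j γ
    have h3 := hr5.local' (ν₃ ++ (ν₂' ++ (ν₂ ++ (blk η j ++ (ν ++ γ)))))
    have h4 := (loop_pow hr6 l).local' (ν₃' ++ (ν₃ ++ (ν₂' ++ (ν₂ ++ (blk η j ++ (ν ++ γ))))))
    have h5 := h1.trans ((show M.Run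
      (s₃, Z₃ :: (ν₃ ++ (ν₂' ++ (ν₂ ++ (blk η j ++ (ν ++ γ)))))) _ _ from h3).trans
      (C₁ := (q₃, Y₃ :: (ν₃' ++ (ν₃ ++ (ν₂' ++ (ν₂ ++ (blk η j ++ (ν ++ γ))))))))
      (by simpa using h4))
    rw [replicate_add' (m₃ + n₃), replicate_add' m₃]
    simpa [Nat.add_assoc] using h5
  obtain ⟨π, hπ, hhid⟩ := hidden M η
  refine ⟨{((π : ℤ) * ρ) • e}, Set.finite_singleton _, ?_, ?_⟩
  · intro h0
    have h1 := (hind ((π : ℤ) * ρ) 0 (by
      have := (Set.mem_singleton_iff.1 h0).symm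
      simpa using this)).1
    rcases mul_eq_zero.1 h1 with h | h <;> omega
  intro R
  obtain ⟨n₀, hn₀⟩ := hhid (ρ₃ + (m₂ + n₂ + J * ρ₂) + 2 + R)
  set j := n₀ + m₃ + n₃ with hj
  set E := n₁ + (J + j) * ρ with hE
  have hEge : m₃ + n₃ ≤ E := by
    have : (J + j) * 1 ≤ (J + j) * ρ := Nat.mul_le_mul_left _ hρ
    omega
  set l := (E - (m₃ + n₃)) / ρ₃ with hl
  set t := (E - (m₃ + n₃)) % ρ₃ with ht
  have hdiv : l * ρ₃ + t = E - (m₃ + n₃) := by
    rw [hl, ht, mul_comm]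
    exact Nat.div_add_mod _ _
  have htlt : t < ρ₃ := Nat.mod_lt _ hρ₃
  set MM := m₂ + n₂ + J * ρ₂ with hMM
  set r := List.replicate t x' ++ (List.replicate MM y' ++ [x, x']) with hr
  have hrlen : r.length = t + MM + 2 := by simp [hr]; omega
  have hEz : (E : ℤ) = m₃ + n₃ + l * ρ₃ + t := by
    have : E = m₃ + n₃ + l * ρ₃ + t := by omega
    rw [this]
    push_cast
    ring
  have hEz2 : ((n₁ + (J + (j + π)) * ρ : ℕ) : ℤ) = E + π * ρ := by
    rw [hE]
    push_cast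
    ring
  refine ⟨((List.replicate E x ++ List.replicate MM y) ++
      List.replicate (m₃ + n₃ + l * ρ₃) x' ++ r).length +
      ((List.replicate (n₁ + (J + (j + π)) * ρ) x ++ List.replicate MM y) ++
      List.replicate (m₃ + n₃ + l * ρ₃) x' ++ r).length, fun γ hL _ => ?_⟩
  refine conf_of (ph3 j l γ) (ph3 (j + π) l γ) (r := r) (by simp [hr]) ?_ ?_
    (Set.mem_singleton _) (Nat.le_add_right _ _) (Nat.le_add_left _ _) ?_
  · simp only [hr, ev_append, ev_replicate hx, ev_replicate hx', ev_replicate hy,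
      ev_replicate hy', ev_cons, ev_nil, hx, hx', mul_one]
    simp only [← zz_add]
    rw [← zz_zero]
    congr 1
    rw [hEz]
    push_cast
    module
  · simp only [hr, ev_append, ev_replicate hx, ev_replicate hx', ev_replicate hy,
      ev_replicate hy', ev_cons, ev_nil, hx, hx', mul_one]
    simp only [← zz_add]
    congr 1
    rw [hEz2, hEz]
    push_cast
    module
  · intro z hz
    exact hn₀ j (by omega) _ _ _ z (by omega)

end DZ
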